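import Pool.Agent.H14WH.Scheme

set_option autoImplicit false
open Filter Topology MeasureTheory Set
open scoped ZeroAtInfty

namespace Pool.Agent.H14WH

section order

variable {T : Type*} [PartialOrder T]

/-- Only finitely many immediate successors of `t` have a value close to that of `t`. -/
def GoodAt (ρ : T → ℝ) (t : T) : Prop := ∃ η : ℝ, 0 < η ∧ {u | t ⋖ u ∧ ρ u < ρ t + η}.Finite

/-- Sets on which some increasing function has no bad points. -/
def GoodSet (G : Set T) : Prop :=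
  ∃ ρ : T → ℝ, Monotone ρ ∧ (∀ s, 0 ≤ ρ s) ∧ (∀ s, ρ s ≤ 1) ∧ ∀ t ∈ G, GoodAt ρ t

theorem GoodSet.mono {G G' : Set T} (h : GoodSet G) (hs : G' ⊆ G) : GoodSet G' := by
  obtain ⟨ρ, h1, h2, h3, h4⟩ := h
  exact ⟨ρ, h1, h2, h3, fun t ht => h4 t (hs ht)⟩

theorem goodSet_empty : GoodSet (∅ : Set T) :=
  ⟨fun _ => 0, fun _ _ _ => le_refl _, fun _ => le_refl _, fun _ => zero_le_one,
    fun _ ht => absurd ht (Set.notMem_empty _)⟩

theorem goodSet_iUnion (G : ℕ → Set T) (h : ∀ n, GoodSet (G n)) : GoodSet (⋃ n, G n) := by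
  choose ρ h1 h2 h3 h4 using h
  have hsum : ∀ s, Summable fun n => (1 / 2 : ℝ) ^ (n + 1) * ρ n s := by
    intro s
    apply Summable.of_nonneg_of_le (fun n => mul_nonneg (by positivity) (h2 n s)) _
      ((summable_nat_add_iff 1).mpr summable_geometric_two)
    intro n
    calc (1 / 2 : ℝ) ^ (n + 1) * ρ n s ≤ (1 / 2 : ℝ) ^ (n + 1) * 1 := by
          gcongr
          exact h3 n s
      _ = (1 / 2 : ℝ) ^ (n + 1) := mul_one _
  refine ⟨fun s => ∑' n, (1 / 2 : ℝ) ^ (n + 1) * ρ n s, ?_, ?_, ?_, ?_⟩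
  · intro s s' hs
    apply Summable.tsum_le_tsum _ (hsum s) (hsum s')
    intro n
    exact mul_le_mul_of_nonneg_left (h1 n hs) (by positivity)
  · intro s
    exact tsum_nonneg fun n => mul_nonneg (by positivity) (h2 n s)
  · intro s
    have e1 : (∑' n, (1 / 2 : ℝ) ^ (n + 1) * ρ n s) ≤ ∑' n : ℕ, (1 / 2 : ℝ) ^ (n + 1) := by
      apply Summable.tsum_le_tsum _ (hsum s) ((summable_nat_add_iff 1).mpr summable_geometric_two)
      intro n
      calc (1 / 2 : ℝ) ^ (n + 1) * ρ n s ≤ (1 / 2 : ℝ) ^ (n + 1) * 1 := by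
            gcongr
            exact h3 n s
        _ = (1 / 2 : ℝ) ^ (n + 1) := mul_one _
    have e2 : (∑' n : ℕ, (1 / 2 : ℝ) ^ (n + 1)) = 1 := by
      have h5 : ∀ n : ℕ, (1 / 2 : ℝ) ^ (n + 1) = (1 / 2 : ℝ) * (1 / 2 : ℝ) ^ n := fun n => by
        rw [pow_succ, mul_comm]
      simp_rw [h5]
      rw [tsum_mul_left, tsum_geometric_two]
      norm_num
    show (∑' n, (1 / 2 : ℝ) ^ (n + 1) * ρ n s) ≤ 1
    linarith
  · intro t ht
    obtain ⟨n, hn⟩ := Set.mem_iUnion.mp ht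
    obtain ⟨η, hη, hfin⟩ := h4 n t hn
    refine ⟨(1 / 2 : ℝ) ^ (n + 1) * η, by positivity, hfin.subset ?_⟩
    rintro u ⟨hu, hlt⟩
    refine ⟨hu, ?_⟩
    have hlt' : (∑' k, (1 / 2 : ℝ) ^ (k + 1) * ρ k u) <
      (∑' k, (1 / 2 : ℝ) ^ (k + 1) * ρ k t) + (1 / 2 : ℝ) ^ (n + 1) * η := hlt
    have hsub : (∑' k, ((1 / 2 : ℝ) ^ (k + 1) * ρ k u - (1 / 2 : ℝ) ^ (k + 1) * ρ k t)) =
        (∑' k, (1 / 2 : ℝ) ^ (k + 1) * ρ k u) - ∑' k, (1 / 2 : ℝ) ^ (k + 1) * ρ k t :=
      (hsum u).tsum_sub (hsum t)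
    have hterm : (1 / 2 : ℝ) ^ (n + 1) * ρ n u - (1 / 2 : ℝ) ^ (n + 1) * ρ n t ≤
        ∑' k, ((1 / 2 : ℝ) ^ (k + 1) * ρ k u - (1 / 2 : ℝ) ^ (k + 1) * ρ k t) := by
      apply ((hsum u).sub (hsum t)).le_tsum n
      intro k _
      have := mul_le_mul_of_nonneg_left (h1 k hu.le) (show (0 : ℝ) ≤ (1 / 2 : ℝ) ^ (k + 1) by positivity)
      linarith
    have hpos : (0 : ℝ) < (1 / 2 : ℝ) ^ (n + 1) := by positivity
    have h6 : (1 / 2 : ℝ) ^ (n + 1) * ρ n u < (1 / 2 : ℝ) ^ (n + 1) * (ρ n t + η) := by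
      rw [mul_add]
      linarith
    exact lt_of_mul_lt_mul_left h6 hpos.le

theorem goodSet_union {G G' : Set T} (h : GoodSet G) (h' : GoodSet G') : GoodSet (G ∪ G') := by
  have := goodSet_iUnion (fun n : ℕ => if n = 0 then G else G') (by
    intro n
    by_cases hn : n = 0
    · simp [hn, h]
    · simp [hn, h'])
  apply this.mono
  rintro t (ht | ht)
  · exact Set.mem_iUnion.mpr ⟨0, by simpa using ht⟩
  · exact Set.mem_iUnion.mpr ⟨1, by simpa using ht⟩

open Classical in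
theorem goodSet_local (hT : IsHausdorffTree T) (G : Set T) :
    GoodSet (G ∩ {s | GoodSet (G ∩ Set.Ici s)}) := by
  let U : Set T := {s | GoodSet (G ∩ Set.Ici s)}
  have hUup : ∀ s s', s ∈ U → s ≤ s' → s' ∈ U := by
    intro s s' hs hss
    exact GoodSet.mono hs fun u hu => ⟨hu.1, hss.trans hu.2⟩
  -- least element of `U` below `s`
  have hmin : ∀ s, s ∈ U → ∃ m, m ∈ U ∧ m ≤ s ∧ ∀ v, v ∈ U → v ≤ s → m ≤ v := by
    intro s hs
    obtain ⟨m, ⟨hm1, hm2⟩, hm3⟩ := hT.wf.has_min {r | r ∈ U ∧ r ≤ s} ⟨s, hs, le_refl s⟩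
    refine ⟨m, hm1, hm2, fun v hv hvs => ?_⟩
    rcases hT.chain s m v hm2 hvs with h | h
    · exact h
    · rcases eq_or_lt_of_le h with h | h
      · exact h.symm.le
      · exact absurd h (hm3 v ⟨hv, hvs⟩)
  choose! m hm1 hm2 hm3 using hmin
  have hmeq : ∀ s s', s ∈ U → s ≤ s' → m s' = m s := by
    intro s s' hs hss
    have hs' := hUup s s' hs hss
    apply le_antisymm
    · exact hm3 s' hs' _ (hm1 s hs) ((hm2 s hs).trans hss)
    · have h1 : m s' ≤ s := (hm3 s' hs' s hs hss)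
      exact hm3 s hs _ (hm1 s' hs') h1
  have hg : ∀ s, ∃ ρ : T → ℝ, s ∈ U → (Monotone ρ ∧ (∀ s, 0 ≤ ρ s) ∧ (∀ s, ρ s ≤ 1) ∧
      ∀ t ∈ G ∩ Set.Ici s, GoodAt ρ t) := by
    intro s
    by_cases hs : s ∈ U
    · obtain ⟨ρ, hρ⟩ := hs
      exact ⟨ρ, fun _ => hρ⟩
    · exact ⟨fun _ => 0, fun h => absurd h hs⟩
  choose R hR using hg
  refine ⟨fun s => if s ∈ U then 1 / 2 + R (m s) s / 2 else 0, ?_, ?_, ?_, ?_⟩
  · intro s s' hss
    by_cases hs : s ∈ U
    · have hs' := hUup s s' hs hss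
      simp only [hs, hs', if_true]
      rw [hmeq s s' hs hss]
      have := (hR (m s) (hm1 s hs)).1 hss
      linarith
    · simp only [hs, if_false]
      by_cases hs' : s' ∈ U
      · simp only [hs', if_true]
        have := (hR (m s') (hm1 s' hs')).2.1 s'
        linarith
      · simp only [hs', if_false]
        exact le_refl _
  · intro s
    by_cases hs : s ∈ U
    · simp only [hs, if_true]
      have := (hR (m s) (hm1 s hs)).2.1 s
      linarith
    · simp only [hs, if_false]; exact le_refl _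
  · intro s
    by_cases hs : s ∈ U
    · simp only [hs, if_true]
      have := (hR (m s) (hm1 s hs)).2.2.1 s
      linarith
    · simp only [hs, if_false]; exact zero_le_one
  · rintro t ⟨htG, htU⟩
    have htU' : t ∈ U := htU
    obtain ⟨η, hη, hfin⟩ := (hR (m t) (hm1 t htU')).2.2.2 t ⟨htG, hm2 t htU'⟩
    refine ⟨η / 2, by linarith, hfin.subset ?_⟩
    rintro u ⟨hu, hlt⟩
    refine ⟨hu, ?_⟩
    have huU : u ∈ U := hUup t u htU' hu.le
    simp only [htU', huU, if_true] at hlt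
    rw [hmeq t u htU' hu.le] at hlt
    linarith

open Classical in
theorem goodSet_finite (A : Set T) :
    GoodSet {t | t ∈ A ∧ {u | t ⋖ u ∧ (A ∩ Set.Ici u).Nonempty}.Finite} := by
  refine ⟨fun t => if (A ∩ Set.Ici t).Nonempty then 0 else 1, ?_, ?_, ?_, ?_⟩
  · intro s s' hss
    by_cases hs' : (A ∩ Set.Ici s').Nonempty
    · have hs : (A ∩ Set.Ici s).Nonempty := hs'.mono fun u hu => ⟨hu.1, hss.trans hu.2⟩
      simp [hs, hs']
    · simp only [hs', if_false]
      split_ifs <;> norm_num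
  · intro s
    show (0 : ℝ) ≤ if (A ∩ Set.Ici s).Nonempty then 0 else 1
    split_ifs <;> norm_num
  · intro s
    show (if (A ∩ Set.Ici s).Nonempty then (0 : ℝ) else 1) ≤ 1
    split_ifs <;> norm_num
  · rintro t ⟨htA, hfin⟩
    refine ⟨1, one_pos, hfin.subset ?_⟩
    rintro u ⟨hu, hlt⟩
    refine ⟨hu, ?_⟩
    by_contra hne
    have h1 : (A ∩ Set.Ici t).Nonempty := ⟨t, htA, le_refl t⟩
    simp only [hne, h1, if_true, if_false, zero_add] at hlt
    exact lt_irrefl _ hlt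

/-- Perfect kernel of a set that is not good. -/
theorem exists_kernel (hT : IsHausdorffTree T) (A : Set T) (hA : ¬ GoodSet A) :
    ∃ B ⊆ A, ¬ GoodSet B ∧ ∀ t ∈ B, {u | t ⋖ u ∧ ¬ GoodSet (B ∩ Set.Ici u)}.Infinite := by
  let U : Set T := {s | GoodSet (A ∩ Set.Ici s)}
  have hAU : GoodSet (A ∩ U) := goodSet_local hT A
  let A' : Set T := A \ U
  have hA' : ¬ GoodSet A' := by
    intro h
    apply hA
    apply (goodSet_union h hAU).mono
    intro t ht
    by_cases htU : t ∈ U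
    · exact Or.inr ⟨ht, htU⟩
    · exact Or.inl ⟨ht, htU⟩
  have hbig : ∀ t, (A' ∩ Set.Ici t).Nonempty → ¬ GoodSet (A' ∩ Set.Ici t) := by
    rintro t ⟨s, ⟨hsA, hsU⟩, hts⟩ hg
    apply hsU
    show GoodSet (A ∩ Set.Ici s)
    apply (goodSet_union hg hAU).mono
    rintro u ⟨huA, hus⟩
    by_cases huU : u ∈ U
    · exact Or.inr ⟨huA, huU⟩
    · exact Or.inl ⟨⟨huA, huU⟩, le_trans hts hus⟩
  let F : Set T := {t | t ∈ A' ∧ {u | t ⋖ u ∧ (A' ∩ Set.Ici u).Nonempty}.Finite}
  have hF : GoodSet F := goodSet_finite A'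
  refine ⟨A' \ F, fun t ht => ht.1.1, ?_, ?_⟩
  · intro h
    apply hA'
    apply (goodSet_union h hF).mono
    intro t ht
    by_cases htF : t ∈ F
    · exact Or.inr htF
    · exact Or.inl ⟨ht, htF⟩
  · rintro t ⟨htA', htF⟩
    have hinf : {u | t ⋖ u ∧ (A' ∩ Set.Ici u).Nonempty}.Infinite := by
      intro hfin
      exact htF ⟨htA', hfin⟩
    apply hinf.mono
    rintro u ⟨hu, hne⟩
    refine ⟨hu, fun hg => ?_⟩
    apply hbig u hne
    apply (goodSet_union hg hF).mono
    rintro v ⟨hv1, hv2⟩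
    by_cases hvF : v ∈ F
    · exact Or.inr hvF
    · exact Or.inl ⟨⟨hv1, hvF⟩, hv2⟩

end order

section space

variable {T : Type*} [PartialOrder T] [τ : TopologicalSpace T]

theorem finite_far_successors (hT : IsHausdorffTree T) (hτ : IsTreeTopology T τ) (t : T)
    (φ : StrongDual ℝ C₀(T, ℝ)) {ε : ℝ} (hε : 0 < ε) :
    {u | t ⋖ u ∧ ∃ s, u ≤ s ∧ ε ≤ |φ (path hT hτ s - path hT hτ t)|}.Finite := by
  classical
  have : Nonempty T := ⟨t⟩
  by_contra hinf
  obtain ⟨M, hM⟩ := exists_nat_gt (‖φ‖ / ε)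
  obtain ⟨S, hS, hcard⟩ := Set.Infinite.exists_subset_card_eq hinf M
  have hch : ∀ u ∈ S, ∃ s, u ≤ s ∧ ε ≤ |φ (path hT hτ s - path hT hτ t)| := fun u hu => (hS hu).2
  choose! s hs1 hs2 using hch
  have hsupp : ∀ u ∈ S, ∀ a, (path hT hτ (s u) - path hT hτ t) a ≠ 0 → u ≤ a := by
    intro u hu a hne
    have e : (path hT hτ (s u) - path hT hτ t) a = path hT hτ (s u) a - path hT hτ t a := rfl
    rw [e] at hne
    have htu : t ⋖ u := (hS hu).1
    by_cases hat : a ≤ t
    · exfalso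
      rw [path_apply_of_le hT hτ hat,
        path_apply_of_le hT hτ (hat.trans (htu.le.trans (hs1 u hu)))] at hne
      exact hne (sub_self _)
    · by_cases has : a ≤ s u
      · rcases hT.chain (s u) a u has (hs1 u hu) with h | h
        · rcases eq_or_lt_of_le h with h | h
          · exact h.symm.le
          · exfalso
            rcases hT.chain u a t h.le htu.le with h2 | h2
            · exact hat h2
            · have h3 : t < a := lt_of_le_of_ne h2 fun h4 => hat h4.symm.le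
              exact htu.2 h3 h
        · exact h
      · exfalso
        rw [path_apply_of_not_le hT hτ hat, path_apply_of_not_le hT hτ has] at hne
        exact hne (sub_self _)
  have hsum := sum_abs_le_of_disjoint S (fun u => path hT hτ (s u) - path hT hτ t)
    (by
      intro u hu u' hu' huu a
      by_contra hcon
      push Not at hcon
      have h1 := hsupp u hu a hcon.1
      have h2 := hsupp u' hu' a hcon.2
      apply huu
      rcases hT.chain a u u' h1 h2 with h | h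
      · rcases eq_or_lt_of_le h with h | h
        · exact h
        · exact absurd h ((hS hu').1.2 (hS hu).1.lt)
      · rcases eq_or_lt_of_le h with h | h
        · exact h.symm
        · exact absurd h ((hS hu).1.2 (hS hu').1.lt))
    (by
      intro u _ a
      exact abs_path_sub_le hT hτ _ _ a) φ
  have h3 : (M : ℝ) * ε ≤ ∑ u ∈ S, |φ (path hT hτ (s u) - path hT hτ t)| := by
    rw [← hcard, ← nsmul_eq_mul]
    exact Finset.card_nsmul_le_sum S _ ε fun u hu => hs2 u hu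
  rw [div_lt_iff₀ hε] at hM
  linarith

variable {Y : Type*} [NormedAddCommGroup Y] [NormedSpace ℝ Y]

theorem finite_outside (hT : IsHausdorffTree T) (hτ : IsTreeTopology T τ)
    (J : C₀(T, ℝ) →L[ℝ] Y) (t : T) (O : Set (WeakSpace ℝ Y)) (hO : IsOpen O)
    (ht : toWeakSpace ℝ Y (J (path hT hτ t)) ∈ O) :
    {u | t ⋖ u ∧ ∃ s, u ≤ s ∧ toWeakSpace ℝ Y (J (path hT hτ s)) ∉ O}.Finite := by
  classical
  obtain ⟨O', hO', hO'eq⟩ := isOpen_induced_iff.mp hO
  have hiff : ∀ y : WeakSpace ℝ Y, (y ∈ O ↔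
      (fun f : StrongDual ℝ Y => (topDualPairing ℝ Y).flip y f) ∈ O') := by
    intro y
    have h1 := Set.ext_iff.mp hO'eq y
    exact h1.symm
  have hmem : (fun f : StrongDual ℝ Y => f (J (path hT hτ t))) ∈ O' := (hiff _).mp ht
  obtain ⟨A, η, hη, hsub⟩ := exists_Box_subset hO' hmem
  apply (Set.Finite.biUnion A.finite_toSet fun φ _ =>
    finite_far_successors hT hτ t (φ.comp J) hη).subset
  rintro u ⟨hu, s, hus, hsO⟩
  by_contra hcon
  apply hsO
  rw [hiff]
  show (fun f : StrongDual ℝ Y => f (J (path hT hτ s))) ∈ O'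
  apply hsub
  intro φ hφ
  by_contra hge
  push Not at hge
  apply hcon
  refine Set.mem_biUnion hφ ⟨hu, s, hus, ?_⟩
  rw [map_sub]
  exact hge

omit [PartialOrder T] in
/-- The range of an isomorphic embedding of `C₀(T)` is weakly sequentially closed. -/
theorem exists_preimage_of_weak_limit (J : C₀(T, ℝ) →L[ℝ] Y) (c : ℝ) (hc : 0 < c)
    (hJ : ∀ g, c * ‖g‖ ≤ ‖J g‖) (g : ℕ → C₀(T, ℝ)) (y : Y)
    (hy : ∀ f : StrongDual ℝ Y, Tendsto (fun n => f (J (g n))) atTop (𝓝 (f y))) :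
    ∃ g' : C₀(T, ℝ), J g' = y := by
  have hanti : AntilipschitzWith ⟨c⁻¹, (inv_pos.mpr hc).le⟩ J := by
    apply AddMonoidHomClass.antilipschitz_of_bound
    intro g
    show ‖g‖ ≤ c⁻¹ * ‖J g‖
    rw [← div_eq_inv_mul, le_div_iff₀ hc]
    linarith [hJ g, mul_comm c ‖g‖]
  have hclosed : IsClosed (Set.range J) := hanti.isClosed_range J.uniformContinuous
  by_contra hcon
  have hnot : y ∉ Set.range J := hcon
  have hconv : Convex ℝ (Set.range J) := by
    have := (LinearMap.range J.toLinearMap).convex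
    have h2 : ((LinearMap.range J.toLinearMap : Submodule ℝ Y) : Set Y) = Set.range J := by
      ext z; simp
    rw [h2] at this
    exact this
  obtain ⟨f, u, hf1, hf2⟩ := geometric_hahn_banach_closed_point hconv hclosed hnot
  have hzero : ∀ g : C₀(T, ℝ), f (J g) = 0 := by
    intro g
    by_contra hne
    have h1 := hf1 (J (((u + 1) / f (J g)) • g)) ⟨_, rfl⟩
    rw [map_smul, map_smul, smul_eq_mul, div_mul_cancel₀ _ hne] at h1
    linarith
  have h2 := hy f
  simp only [hzero] at h2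
  have h3 : f y = 0 := tendsto_nhds_unique h2 tendsto_const_nhds
  have h4 := hf1 (J 0) ⟨0, rfl⟩
  rw [hzero 0] at h4
  linarith

/-- A weakly convergent strictly increasing sequence of paths is impossible. -/
theorem no_increasing_limit (hT : IsHausdorffTree T) (hτ : IsTreeTopology T τ) (t : ℕ → T)
    (ht : StrictMono t) (g : C₀(T, ℝ))
    (hg : ∀ a, Tendsto (fun n => path hT hτ (t n) a) atTop (𝓝 (g a))) : False := by
  have h1 : ∀ a n, a ≤ t n → g a = 1 := by
    intro a n han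
    apply tendsto_nhds_unique (hg a)
    apply tendsto_const_nhds.congr'
    filter_upwards [eventually_ge_atTop n] with k hk
    exact (path_apply_of_le hT hτ (han.trans (ht.monotone hk))).symm
  have h0 : ∀ a, (∀ n, ¬ a ≤ t n) → g a = 0 := by
    intro a han
    apply tendsto_nhds_unique (hg a)
    apply tendsto_const_nhds.congr
    intro k
    exact (path_apply_of_not_le hT hτ (han k)).symm
  have hSeq : {a | g a = 1} = ⋃ n, Set.Iic (t n) := by
    ext a
    simp only [Set.mem_iUnion, Set.mem_Iic]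
    constructor
    · intro ha
      by_contra hcon
      push Not at hcon
      have h2 := h0 a hcon
      have ha' : g a = 1 := ha
      rw [h2] at ha'
      exact zero_ne_one ha'
    · rintro ⟨n, hn⟩
      exact h1 a n hn
  have hcomp : IsCompact {a | g a = 1} := by
    have hev : ∀ᶠ a in Filter.cocompact T, g a < 1 :=
      g.zero_at_infty'.eventually (gt_mem_nhds zero_lt_one)
    obtain ⟨C, hC, hsub⟩ := Filter.mem_cocompact.mp hev
    apply hC.of_isClosed_subset
    · exact isClosed_eq g.continuous_toFun continuous_const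
    · intro a ha
      by_contra haC
      have h2 : g a < 1 := hsub haC
      have ha' : g a = 1 := ha
      linarith
  rw [hSeq] at hcomp
  obtain ⟨n, hn⟩ := hcomp.elim_directed_cover (fun n => Set.Iic (t n))
    (fun n => isOpen_Iic hτ (t n)) (le_refl _) (by
      intro i j
      refine ⟨max i j, ?_, ?_⟩
      · exact Set.Iic_subset_Iic.mpr (ht.monotone (le_max_left i j))
      · exact Set.Iic_subset_Iic.mpr (ht.monotone (le_max_right i j)))
  have h3 : t (n + 1) ∈ Set.Iic (t n) := hn (Set.mem_iUnion.mpr ⟨n + 1, le_refl _⟩)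
  exact absurd (ht (Nat.lt_succ_self n)) (not_lt_of_ge h3)

variable {X : Type*} [NormedAddCommGroup X] [NormedSpace ℝ X]

/-- Kadec type property: balls are weak neighbourhoods relative to slightly larger balls of `N`. -/
def KadecProp (N : X → ℝ) : Prop :=
  ∀ (x : X) (ε : ℝ), 0 < ε → ∃ q : ℚ, N x < q ∧ ∃ W : Set (WeakSpace ℝ X), IsOpen W ∧
    toWeakSpace ℝ X x ∈ W ∧ ∀ z : X, toWeakSpace ℝ X z ∈ W → N z ≤ q → ‖z - x‖ < ε

theorem exists_increasing_no_bad [CompleteSpace X] (hT : IsHausdorffTree T)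
    (hτ : IsTreeTopology T τ) (J : C₀(T, ℝ) →L[ℝ] Y) (c : ℝ) (hc : 0 < c)
    (hJ : ∀ g, c * ‖g‖ ≤ ‖J g‖) (h : WeakSpace ℝ X ≃ₜ WeakSpace ℝ Y)
    (N : X → ℝ) (hK : KadecProp N) : GoodSet (Set.univ : Set T) := by
  classical
  by_contra hbad
  have : Nonempty T := by
    by_contra hne
    apply hbad
    apply goodSet_empty.mono
    intro t _
    exact absurd ⟨t⟩ hne
  have step : ∀ (A : Set T) (j : ℕ), ¬ GoodSet A → ∃ t ∈ A, ∃ A₁ ⊆ A, ¬ GoodSet A₁ ∧
      ∀ s ∈ A₁, t < s ∧ ‖pt hT hτ J h s - pt hT hτ J h t‖ < (1 / 2 : ℝ) ^ j := by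
    intro A j hA
    let P : ℚ → Set T := fun q => {t | N (pt hT hτ J h t) < q ∧
      ∃ W : Set (WeakSpace ℝ X), IsOpen W ∧ toWeakSpace ℝ X (pt hT hτ J h t) ∈ W ∧
        ∀ z : X, toWeakSpace ℝ X z ∈ W → N z ≤ q → ‖z - pt hT hτ J h t‖ < (1 / 2 : ℝ) ^ j}
    obtain ⟨q, hq⟩ : ∃ q, ¬ GoodSet (A ∩ P q) := by
      by_contra hcon
      push Not at hcon
      apply hA
      obtain ⟨e⟩ : Nonempty (ℕ ≃ ℚ) := ⟨(Denumerable.eqv ℚ).symm⟩
      apply (goodSet_iUnion (fun n => A ∩ P (e n)) fun n => hcon _).mono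
      intro t ht
      obtain ⟨q, hq1, hq2⟩ := hK (pt hT hτ J h t) ((1 / 2 : ℝ) ^ j) (by positivity)
      refine Set.mem_iUnion.mpr ⟨e.symm q, ht, ?_⟩
      rw [Equiv.apply_symm_apply]
      exact ⟨hq1, hq2⟩
    obtain ⟨B, hB1, hB2, hB3⟩ := exists_kernel hT _ hq
    obtain ⟨t, htB⟩ : B.Nonempty := by
      rw [Set.nonempty_iff_ne_empty]
      intro h0
      rw [h0] at hB2
      exact hB2 goodSet_empty
    obtain ⟨htA, htq, W, hW1, hW2, hW3⟩ := hB1 htB
    have hOopen : IsOpen (h.symm ⁻¹' W) := hW1.preimage h.symm.continuous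
    have hfin := finite_outside hT hτ J t (h.symm ⁻¹' W) hOopen hW2
    obtain ⟨u, ⟨hu1, hu2⟩, hu3⟩ := ((hB3 t htB).sdiff hfin).nonempty
    refine ⟨t, htA, B ∩ Set.Ici u, fun s hs => (hB1 hs.1).1, hu2, ?_⟩
    rintro s ⟨hsB, hus⟩
    refine ⟨lt_of_lt_of_le hu1.lt hus, ?_⟩
    apply hW3 (pt hT hτ J h s)
    · by_contra hnot
      exact hu3 ⟨hu1, s, hus, hnot⟩
    · exact (hB1 hsB).2.1.le
  -- iterate
  choose! tt htA AA hAA1 hAA2 hAA3 using step
  let S : ℕ → Set T := fun j => Nat.rec Set.univ (fun j A => AA A j) j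
  have hS0 : S 0 = Set.univ := rfl
  have hSs : ∀ j, S (j + 1) = AA (S j) j := fun j => rfl
  have hSbad : ∀ j, ¬ GoodSet (S j) := by
    intro j
    induction j with
    | zero => exact hbad
    | succ j ih => rw [hSs]; exact hAA2 _ _ ih
  let t : ℕ → T := fun j => tt (S j) j
  have htS : ∀ j, t j ∈ S j := fun j => htA _ _ (hSbad j)
  have hrel : ∀ j, t j < t (j + 1) ∧ ‖pt hT hτ J h (t (j + 1)) - pt hT hτ J h (t j)‖ < (1 / 2 : ℝ) ^ j := by
    intro j
    have h1 : t (j + 1) ∈ AA (S j) j := by rw [← hSs]; exact htS (j + 1)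
    exact hAA3 (S j) j (hSbad j) _ h1
  have hmono : StrictMono t := strictMono_nat_of_lt_succ fun j => (hrel j).1
  have hcauchy : CauchySeq fun j => pt hT hτ J h (t j) := by
    apply cauchySeq_of_le_geometric (1 / 2) 1 (by norm_num)
    intro j
    rw [one_mul, dist_comm, dist_eq_norm]
    exact (hrel j).2.le
  obtain ⟨x, hx⟩ := cauchySeq_tendsto_of_complete hcauchy
  have hxw : Tendsto (fun j => toWeakSpace ℝ X (pt hT hτ J h (t j))) atTop
      (𝓝 (toWeakSpace ℝ X x)) :=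
    ((toWeakSpaceCLM ℝ X).continuous.tendsto x).comp hx
  have hyw : Tendsto (fun j => toWeakSpace ℝ Y (J (path hT hτ (t j)))) atTop
      (𝓝 (h (toWeakSpace ℝ X x))) := by
    have h1 := (h.continuous.tendsto (toWeakSpace ℝ X x)).comp hxw
    refine h1.congr fun j => ?_
    show h ((toWeakSpace ℝ X) ((toWeakSpace ℝ X).symm (h.symm _))) = _
    rw [LinearEquiv.apply_symm_apply, Homeomorph.apply_symm_apply]
  let y : Y := (toWeakSpace ℝ Y).symm (h (toWeakSpace ℝ X x))
  have hyf : ∀ f : StrongDual ℝ Y,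
      Tendsto (fun n => f (J (path hT hτ (t n)))) atTop (𝓝 (f y)) := by
    intro f
    have hev := (WeakBilin.eval_continuous (topDualPairing ℝ Y).flip f).tendsto
      (h (toWeakSpace ℝ X x))
    exact hev.comp hyw
  obtain ⟨g, hg⟩ := exists_preimage_of_weak_limit J c hc hJ (fun n => path hT hτ (t n)) y hyf
  apply no_increasing_limit hT hτ t hmono g
  intro a
  obtain ⟨ψ, hψ⟩ := exists_eval_extension J c hc hJ a
  have h1 := hyf ψ
  rw [← hg, hψ] at h1
  refine h1.congr fun n => ?_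
  exact hψ _

end space

end Pool.Agent.H14WH
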