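import Mathlib

set_option autoImplicit false
open Filter Topology MeasureTheory Set
open scoped ENNReal

namespace Pool.Agent.H14WH

/-- Fair coin. -/
noncomputable def coin : Measure Bool := (2 : ℝ≥0∞)⁻¹ • Measure.count

instance : IsProbabilityMeasure coin := by
  constructor
  rw [coin, Measure.smul_apply, Measure.count_univ]
  simp only [ENat.card_eq_coe_fintype_card, Fintype.card_bool, smul_eq_mul]
  exact ENNReal.inv_mul_cancel (by norm_num) (by norm_num)

theorem coin_singleton (b : Bool) : coin {b} = (2 : ℝ≥0∞)⁻¹ := by
  rw [coin, Measure.smul_apply, Measure.count_singleton]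
  simp

/-- Coin tossing measure. -/
noncomputable def coins : Measure (ℕ → Bool) := Measure.infinitePi (fun _ => coin)

instance : IsProbabilityMeasure coins := by
  unfold coins; infer_instance

theorem coins_zero (b : Bool) : coins {ω | ω 0 = b} = (2 : ℝ≥0∞)⁻¹ := by
  have h : {ω : ℕ → Bool | ω 0 = b} = Set.pi ((({0} : Finset ℕ)) : Set ℕ) (fun _ => {b}) := by
    ext ω; simp
  rw [coins, h, Measure.infinitePi_pi]
  · simp [coin_singleton]
  · intro i _; exact measurableSet_singleton b

instance : NullSingletonClass coins := by
  constructor
  intro ω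
  have h1 : ∀ k : ℕ, coins {ω} ≤ (2 : ℝ≥0∞)⁻¹ ^ k := by
    intro k
    have h2 : coins (Set.pi ((Finset.range k : Finset ℕ) : Set ℕ) (fun i => {ω i})) =
        (2 : ℝ≥0∞)⁻¹ ^ k := by
      rw [coins, Measure.infinitePi_pi]
      · simp [coin_singleton]
      · intro i _; exact measurableSet_singleton _
    rw [← h2]
    apply measure_mono
    intro ω' hω'
    rw [Set.mem_singleton_iff] at hω'
    subst hω'
    intro i _
    rfl
  have h3 : Tendsto (fun k : ℕ => (2 : ℝ≥0∞)⁻¹ ^ k) atTop (𝓝 0) :=
    ENNReal.tendsto_pow_atTop_nhds_zero_of_lt_one (by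
      rw [ENNReal.inv_lt_one]; norm_num)
  exact le_antisymm (ge_of_tendsto' h3 h1) zero_le

section

variable {α : Type*} (child : α → Bool → α) (r : α)

/-- The node reached after `k` steps. -/
def node (b : ℕ → Bool) : ℕ → α
  | 0 => r
  | k + 1 => child (node b k) (b k)

theorem measurable_node (k : ℕ) : ∀ g : α → ℝ, Measurable fun b : ℕ → Bool => g (node child r b k) := by
  induction k with
  | zero =>
    intro g
    show Measurable fun _ : ℕ → Bool => g r
    exact measurable_const
  | succ k ih =>
    intro g
    have h1 : (fun b : ℕ → Bool => g (node child r b (k + 1))) =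
        fun b => if b k = true then (fun a => g (child a true)) (node child r b k)
          else (fun a => g (child a false)) (node child r b k) := by
      ext b
      show g (child (node child r b k) (b k)) = _
      cases b k <;> simp
    rw [h1]
    apply Measurable.ite
    · have : {b : ℕ → Bool | b k = true} = (fun b : ℕ → Bool => b k) ⁻¹' {true} := rfl
      rw [this]
      exact (measurable_pi_apply k) (measurableSet_singleton _)
    · exact ih (fun a => g (child a true))
    · exact ih (fun a => g (child a false))

theorem finite_range_node (k : ℕ) : (Set.range fun b : ℕ → Bool => node child r b k).Finite := by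
  induction k with
  | zero =>
    apply Set.Finite.subset (Set.finite_singleton r)
    rintro _ ⟨b, rfl⟩
    rfl
  | succ k ih =>
    apply Set.Finite.subset (Set.Finite.image2 child ih (Set.finite_univ))
    rintro _ ⟨b, rfl⟩
    exact ⟨_, ⟨b, rfl⟩, b k, Set.mem_univ _, rfl⟩

theorem node_congr {b c : ℕ → Bool} {k : ℕ} (h : ∀ i < k, b i = c i) :
    node child r b k = node child r c k := by
  induction k with
  | zero => rfl
  | succ k ih =>
    show child (node child r b k) (b k) = child (node child r c k) (c k)
    rw [ih fun i hi => h i (hi.trans (Nat.lt_succ_self k)), h k (Nat.lt_succ_self k)]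

end

end Pool.Agent.H14WH
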