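import Mathlib

set_option autoImplicit false
open Filter Topology

namespace Pool.Agent.H14WH

/-- A Hausdorff tree: a well founded partial order in which the elements below a given one form a
chain, and in which two elements of limit height with the same strict predecessors coincide. -/
structure IsHausdorffTree (T : Type*) [PartialOrder T] : Prop where
  wf : WellFounded ((· < ·) : T → T → Prop)
  chain : ∀ t a b : T, a ≤ t → b ≤ t → a ≤ b ∨ b ≤ a
  haus : ∀ a b : T, (∃ c, c < a) → (∀ c, ¬ c ⋖ a) → (∀ c, c < a ↔ c < b) → a = b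

/-- The tree topology: it is generated by the intervals `(a, b]` and `(0, b]`, where `(0, b]` is
the set of all elements below `b`. -/
def IsTreeTopology (T : Type*) [PartialOrder T] (τ : TopologicalSpace T) : Prop :=
  τ = TopologicalSpace.generateFrom {S | (∃ a b : T, S = Set.Ioc a b) ∨ ∃ b : T, S = Set.Iic b}

/-- There is an increasing real function `ρ₀` such that every increasing sequence on which `ρ₀` is
constant has an upper bound. (For constant `ρ₀`: every increasing sequence has an upper bound.) -/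
def LimitClosed (T : Type*) [PartialOrder T] : Prop :=
  ∃ ρ₀ : T → ℝ, Monotone ρ₀ ∧
    ∀ f : ℕ → T, Monotone f → (∀ n, ρ₀ (f n) = ρ₀ (f 0)) → ∃ u, ∀ n, f n ≤ u

/-- A set is ever-branching if it is nonempty and above each of its elements there are two
incomparable elements of the set. -/
def EverBranching {T : Type*} [PartialOrder T] (E : Set T) : Prop :=
  E.Nonempty ∧ ∀ s ∈ E, ∃ a ∈ E, ∃ b ∈ E, s ≤ a ∧ s ≤ b ∧ ¬ a ≤ b ∧ ¬ b ≤ a

/-- The point `t` is a bad point for `ρ` if there are distinct immediate successors `u n` of `t`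
with `ρ (u n) → ρ t`. -/
def IsBadPoint {T : Type*} [PartialOrder T] (ρ : T → ℝ) (t : T) : Prop :=
  ∃ u : ℕ → T, Function.Injective u ∧ (∀ n, t ⋖ u n) ∧
    Tendsto (fun n => ρ (u n)) atTop (𝓝 (ρ t))

/-- `N` is an equivalent norm on `X`. -/
structure IsEquivNorm {X : Type*} [NormedAddCommGroup X] [NormedSpace ℝ X] (N : X → ℝ) : Prop where
  add_le : ∀ x y : X, N (x + y) ≤ N x + N y
  smul_eq : ∀ (c : ℝ) (x : X), N (c • x) = |c| * N x
  equiv : ∃ a b : ℝ, 0 < a ∧ 0 < b ∧ ∀ x : X, a * ‖x‖ ≤ N x ∧ N x ≤ b * ‖x‖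

/-- `X` has an equivalent locally uniformly rotund norm. -/
def LURRenormable (X : Type*) [NormedAddCommGroup X] [NormedSpace ℝ X] : Prop :=
  ∃ N : X → ℝ, IsEquivNorm N ∧ ∀ (x : X) (u : ℕ → X), N x = 1 → (∀ n, N (u n) = 1) →
    Tendsto (fun n => N (u n + x)) atTop (𝓝 2) → Tendsto (fun n => N (u n - x)) atTop (𝓝 0)

end Pool.Agent.H14WH
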