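import Pool.Agent.H14WH.Lur

set_option autoImplicit false
open Filter Topology Set Ordinal
open scoped ZeroAtInfty

namespace Pool.Agent.H14WH

/-- The full dyadic tree of height `ω₁`: an element is a map from a countable ordinal `len` to
`{false, true}` (extended by `false`). -/
@[ext] structure DyadicTree where
  len : Ordinal.{0}
  len_lt : len < ω₁
  val : Ordinal.{0} → Bool
  val_eq : ∀ β, len ≤ β → val β = false

namespace DyadicTree

/-- The order is extension of maps. -/
instance : PartialOrder DyadicTree where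
  le p q := p.len ≤ q.len ∧ ∀ β < p.len, p.val β = q.val β
  le_refl p := ⟨le_refl _, fun _ _ => rfl⟩
  le_trans p q r h1 h2 := ⟨h1.1.trans h2.1, fun β hβ =>
    (h1.2 β hβ).trans (h2.2 β (lt_of_lt_of_le hβ h1.1))⟩
  le_antisymm p q h1 h2 := by
    have hlen : p.len = q.len := le_antisymm h1.1 h2.1
    ext β
    · exact hlen
    · rcases lt_or_ge β p.len with h | h
      · rw [h1.2 β h]
      · rw [p.val_eq β h, q.val_eq β (hlen ▸ h)]

theorem le_iff {p q : DyadicTree} : p ≤ q ↔ p.len ≤ q.len ∧ ∀ β < p.len, p.val β = q.val β :=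
  Iff.rfl

theorem len_lt_of_lt {p q : DyadicTree} (h : p < q) : p.len < q.len := by
  rcases lt_or_eq_of_le (le_iff.mp h.le).1 with h1 | h1
  · exact h1
  · exfalso
    apply h.not_ge
    rw [le_iff]
    exact ⟨h1.symm.le, fun β hβ => ((le_iff.mp h.le).2 β (h1 ▸ hβ)).symm⟩

/-- Restriction of an element to a smaller ordinal. -/
noncomputable def restr (p : DyadicTree) (γ : Ordinal.{0}) (hγ : γ ≤ p.len) : DyadicTree where
  len := γ
  len_lt := lt_of_le_of_lt hγ p.len_lt
  val β := if β < γ then p.val β else false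
  val_eq _ hβ := if_neg (not_lt.mpr hβ)

theorem restr_le (p : DyadicTree) (γ : Ordinal.{0}) (hγ : γ ≤ p.len) : p.restr γ hγ ≤ p := by
  rw [le_iff]
  exact ⟨hγ, fun β hβ => if_pos hβ⟩

theorem restr_lt (p : DyadicTree) (γ : Ordinal.{0}) (hγ : γ < p.len) : p.restr γ hγ.le < p := by
  apply lt_of_le_of_ne (restr_le _ _ _)
  intro h
  have : (p.restr γ hγ.le).len = p.len := by rw [h]
  exact hγ.ne this

/-- One step extension. -/
noncomputable def snoc (p : DyadicTree) (b : Bool) : DyadicTree where
  len := Order.succ p.len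
  len_lt := (Cardinal.isSuccLimit_omega 1).succ_lt p.len_lt
  val β := if β = p.len then b else p.val β
  val_eq β hβ := by
    have h1 : p.len < β := lt_of_lt_of_le (Order.lt_succ p.len) hβ
    rw [if_neg h1.ne', p.val_eq β h1.le]

theorem le_snoc (p : DyadicTree) (b : Bool) : p ≤ p.snoc b := by
  rw [le_iff]
  refine ⟨Order.le_succ _, fun β hβ => ?_⟩
  show p.val β = if β = p.len then b else p.val β
  rw [if_neg hβ.ne]

theorem snoc_incomp (p : DyadicTree) (b c : Bool) (h : p.snoc b ≤ p.snoc c) : b = c := by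
  have h1 := (le_iff.mp h).2 p.len (Order.lt_succ p.len)
  have h2 : (if p.len = p.len then b else p.val p.len) =
    (if p.len = p.len then c else p.val p.len) := h1
  simpa using h2

theorem isHausdorffTree : IsHausdorffTree DyadicTree where
  wf := by
    apply Subrelation.wf (r := InvImage (· < ·) DyadicTree.len) _
      (InvImage.wf _ wellFounded_lt)
    intro p q h
    exact len_lt_of_lt h
  chain t a b ha hb := by
    rw [le_iff] at ha hb
    rcases le_total a.len b.len with h | h
    · left
      rw [le_iff]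
      exact ⟨h, fun β hβ => (ha.2 β hβ).trans (hb.2 β (lt_of_lt_of_le hβ h)).symm⟩
    · right
      rw [le_iff]
      exact ⟨h, fun β hβ => (hb.2 β hβ).trans (ha.2 β (lt_of_lt_of_le hβ h)).symm⟩
  haus a b _ hnc hab := by
    -- the length of `a` has no immediate predecessor
    have hlim : ∀ γ, γ < a.len → Order.succ γ < a.len := by
      intro γ hγ
      by_contra hcon
      have hlen : a.len = Order.succ γ := le_antisymm (not_lt.mp hcon) (Order.succ_le_of_lt hγ)
      apply hnc (a.restr γ hγ.le)
      refine ⟨restr_lt _ _ hγ, ?_⟩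
      intro c hc1 hc2
      have h1 : γ < c.len := len_lt_of_lt hc1
      have h2 : c.len < a.len := len_lt_of_lt hc2
      rw [hlen] at h2
      exact absurd (Order.lt_succ_iff.mp h2) (not_le.mpr h1)
    have hlen : a.len = b.len := by
      apply le_antisymm
      · by_contra hcon
        push Not at hcon
        have h1 := (hab _).mp (restr_lt a b.len hcon)
        have h2 : b.len < b.len := len_lt_of_lt (p := a.restr b.len hcon.le) h1
        exact lt_irrefl _ h2
      · by_contra hcon
        push Not at hcon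
        have h1 := (hab _).mpr (restr_lt b a.len hcon)
        have h2 : a.len < a.len := len_lt_of_lt (p := b.restr a.len hcon.le) h1
        exact lt_irrefl _ h2
    ext β
    · exact hlen
    · rcases lt_or_ge β a.len with h | h
      · have h1 := hlim β h
        have h2 := (hab _).mp (restr_lt a (Order.succ β) h1)
        have h3 := (le_iff.mp h2.le).2 β (Order.lt_succ β)
        have h4 : (a.restr (Order.succ β) h1.le).val β = a.val β := if_pos (Order.lt_succ β)
        rw [← h4, h3]
      · rw [a.val_eq β h, b.val_eq β (hlen ▸ h)]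

theorem exists_upper (f : ℕ → DyadicTree) (hf : Monotone f) : ∃ u, ∀ n, f n ≤ u := by
  classical
  have hcons : ∀ m n β, β < (f m).len → β < (f n).len → (f m).val β = (f n).val β := by
    intro m n β hm hn
    rcases le_total m n with h | h
    · exact (le_iff.mp (hf h)).2 β hm
    · exact ((le_iff.mp (hf h)).2 β hn).symm
  refine ⟨⟨⨆ n, (f n).len, ?_, fun β => if h : ∃ n, β < (f n).len then (f h.choose).val β else false,
    ?_⟩, ?_⟩
  · exact Ordinal.iSup_lt_omega_one fun n => (f n).len_lt
  · intro β hβ
    rw [dif_neg]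
    rintro ⟨n, hn⟩
    have h1 : (f n).len ≤ ⨆ n, (f n).len := Ordinal.le_iSup _ n
    exact absurd (lt_of_lt_of_le hn h1) (not_lt.mpr hβ)
  · intro n
    rw [le_iff]
    refine ⟨Ordinal.le_iSup _ n, fun β hβ => ?_⟩
    have hex : ∃ n, β < (f n).len := ⟨n, hβ⟩
    show (f n).val β = if h : ∃ n, β < (f n).len then (f h.choose).val β else false
    rw [dif_pos hex]
    exact hcons _ _ _ hβ hex.choose_spec

instance : Nonempty DyadicTree :=
  ⟨⟨0, Ordinal.omega_pos 1, fun _ => false, fun _ _ => rfl⟩⟩

theorem branching (s : DyadicTree) : ∃ a b, s ≤ a ∧ s ≤ b ∧ ¬ a ≤ b ∧ ¬ b ≤ a := by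
  refine ⟨s.snoc true, s.snoc false, le_snoc _ _, le_snoc _ _, ?_, ?_⟩
  · intro h
    exact absurd (snoc_incomp _ _ _ h) (by decide)
  · intro h
    exact absurd (snoc_incomp _ _ _ h) (by decide)

theorem limitClosed : LimitClosed DyadicTree :=
  ⟨fun _ => 0, fun _ _ _ => le_refl _, fun f hf _ => exists_upper f hf⟩

end DyadicTree

/-- No Banach space that contains `C₀(T)`, for the full dyadic tree `T` of height `ω₁`, is weakly
homeomorphic to a Banach space with an equivalent strictly convex norm. -/
theorem dyadic_not_weakly_homeomorphic (τ : TopologicalSpace DyadicTree)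
    (hτ : IsTreeTopology DyadicTree τ)
    (X Y : Type*) [NormedAddCommGroup X] [NormedSpace ℝ X] [CompleteSpace X]
    [NormedAddCommGroup Y] [NormedSpace ℝ Y] (hX : StrictlyConvexRenormable X)
    (J : C₀(DyadicTree, ℝ) →L[ℝ] Y) (c : ℝ) (hc : 0 < c) (hJ : ∀ g, c * ‖g‖ ≤ ‖J g‖) :
    IsEmpty (WeakSpace ℝ X ≃ₜ WeakSpace ℝ Y) := by
  constructor
  intro h
  obtain ⟨N, hN, hs⟩ := hX
  obtain ⟨ρ, hρ, hE⟩ := exists_increasing_of_strictlyConvex DyadicTree.isHausdorffTree hτ
    DyadicTree.limitClosed J c hc hJ h N hN.add_le hN.smul_eq hN.continuous (strict_of_unit hN hs)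
  obtain ⟨E, hEb, hconst⟩ := exists_constant_everBranching DyadicTree.exists_upper
    DyadicTree.branching ρ hρ
  obtain ⟨s, hs', t, ht, hne⟩ := hE E hEb
  exact hne (hconst s hs' t ht)

end Pool.Agent.H14WH
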