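import Mathlib

set_option autoImplicit false
open Filter Topology MeasureTheory Set

namespace Pool.Agent.H14WH

/-- Basic box in a product of copies of the line. -/
def Box {Γ : Type*} (A : Finset Γ) (c : Γ → ℝ) (η : ℝ) : Set (Γ → ℝ) :=
  {p | ∀ γ ∈ A, |p γ - c γ| < η}

theorem isOpen_Box {Γ : Type*} (A : Finset Γ) (c : Γ → ℝ) (η : ℝ) : IsOpen (Box A c η) := by
  have : Box A c η = ⋂ γ ∈ A, {p : Γ → ℝ | |p γ - c γ| < η} := by
    ext p; simp [Box]
  rw [this]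
  apply isOpen_biInter_finset
  intro γ _
  exact isOpen_lt (by fun_prop) continuous_const

theorem self_mem_Box {Γ : Type*} (A : Finset Γ) (c : Γ → ℝ) {η : ℝ} (h : 0 < η) : c ∈ Box A c η := by
  intro γ _; simpa using h

theorem exists_Box_subset {Γ : Type*} {O : Set (Γ → ℝ)} (hO : IsOpen O) {c : Γ → ℝ} (hc : c ∈ O) :
    ∃ (A : Finset Γ) (η : ℝ), 0 < η ∧ Box A c η ⊆ O := by
  rw [isOpen_pi_iff] at hO
  obtain ⟨I, u, hu, hsub⟩ := hO c hc
  have : ∀ γ ∈ I, ∃ η > 0, ∀ r : ℝ, |r - c γ| < η → r ∈ u γ := by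
    intro γ hγ
    obtain ⟨ho, hm⟩ := hu γ hγ
    obtain ⟨η, hη, hb⟩ := Metric.isOpen_iff.mp ho (c γ) hm
    refine ⟨η, hη, fun r hr => hb ?_⟩
    simpa [Real.dist_eq] using hr
  choose! f hf using this
  by_cases hI : I.Nonempty
  · refine ⟨I, I.inf' hI f, ?_, ?_⟩
    · rw [Finset.lt_inf'_iff]
      intro γ hγ
      exact (hf γ hγ).1
    · intro p hp
      apply hsub
      intro γ hγ
      have hγ' : γ ∈ I := hγ
      apply (hf γ hγ').2
      exact lt_of_lt_of_le (hp γ hγ') (Finset.inf'_le _ hγ')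
  · refine ⟨∅, 1, one_pos, ?_⟩
    intro p _
    apply hsub
    rw [Finset.not_nonempty_iff_eq_empty] at hI
    intro γ hγ
    rw [hI] at hγ
    simp at hγ

theorem Box_pos {Γ : Type*} (A : Finset Γ) (c : Γ → ℝ) {η : ℝ} (h : 0 < η) :
    0 < Measure.infinitePi (fun _ : Γ => ProbabilityTheory.gaussianReal 0 1) (Box A c η) := by
  have hE : Box A c η = Set.pi (A : Set Γ) (fun γ => Metric.ball (c γ) η) := by
    ext p; simp [Box, Set.mem_pi, Real.dist_eq]
  rw [hE, Measure.infinitePi_pi]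
  · rw [pos_iff_ne_zero, Finset.prod_ne_zero_iff]
    intro γ _
    have hac := ProbabilityTheory.gaussianReal_absolutelyContinuous' (0 : ℝ) (v := 1) one_ne_zero
    intro h0
    have := hac h0
    have h1 : 0 < volume (Metric.ball (c γ) η) := Metric.measure_ball_pos _ _ h
    exact absurd this h1.ne'
  · intro γ _
    exact measurableSet_ball

theorem measurableSet_Box {Γ : Type*} (A : Finset Γ) (c : Γ → ℝ) (η : ℝ) :
    MeasurableSet (Box A c η) := by
  have : Box A c η = ⋂ γ ∈ A, {p : Γ → ℝ | |p γ - c γ| < η} := by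
    ext p; simp [Box]
  rw [this]
  apply Finset.measurableSet_biInter
  intro γ _
  exact measurableSet_lt (by fun_prop) measurable_const

/-- Countable chain condition for boxes. -/
theorem countable_of_disjoint_boxes {Γ : Type*} (S : Set (Finset Γ × (Γ → ℝ) × ℝ))
    (hpos : ∀ s ∈ S, 0 < s.2.2)
    (hdisj : S.PairwiseDisjoint (fun s => Box s.1 s.2.1 s.2.2)) : S.Countable := by
  have h := Measure.countable_meas_pos_of_disjoint_iUnion
    (μ := Measure.infinitePi (fun _ : Γ => ProbabilityTheory.gaussianReal 0 1))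
    (As := fun s : S => Box s.1.1 s.1.2.1 s.1.2.2)
    (fun s => measurableSet_Box _ _ _)
    (by
      intro s t hst
      apply hdisj s.2 t.2
      intro h; exact hst (Subtype.ext h))
  have h2 : {i : S | 0 < Measure.infinitePi (fun _ : Γ => ProbabilityTheory.gaussianReal 0 1)
      (Box i.1.1 i.1.2.1 i.1.2.2)} = Set.univ := by
    ext s
    simp only [Set.mem_ofPred_eq, Set.mem_univ, iff_true]
    exact Box_pos _ _ (hpos _ s.2)
  rw [h2] at h
  exact Set.countable_coe_iff.mp (Set.countable_univ_iff.mp h)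

/-- In a dense subspace of a product of lines every open set contains, as a dense subset, the trace
of a countable union of boxes. -/
theorem exists_countable_dense_boxes {Γ D : Type*} [TopologicalSpace D] (e : D → (Γ → ℝ))
    (he : IsInducing e) (hd : DenseRange e) (U : Set D) (hU : IsOpen U) :
    ∃ S : Set (Finset Γ × (Γ → ℝ) × ℝ), S.Countable ∧
      (∀ s ∈ S, e ⁻¹' (Box s.1 s.2.1 s.2.2) ⊆ U) ∧
      (∀ O : Set D, IsOpen O → (O ∩ U).Nonempty →
        ∃ s ∈ S, (O ∩ e ⁻¹' (Box s.1 s.2.1 s.2.2)).Nonempty) := by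
  let P : Set (Set (Finset Γ × (Γ → ℝ) × ℝ)) :=
    {S | (∀ s ∈ S, 0 < s.2.2 ∧ e ⁻¹' (Box s.1 s.2.1 s.2.2) ⊆ U) ∧
      S.PairwiseDisjoint (fun s => Box s.1 s.2.1 s.2.2)}
  obtain ⟨S, hSmax⟩ : ∃ S, Maximal (· ∈ P) S := by
    apply zorn_subset
    intro c hc hchain
    refine ⟨⋃₀ c, ⟨?_, ?_⟩, fun s hs => Set.subset_sUnion_of_mem hs⟩
    · rintro s ⟨T, hT, hs⟩
      exact (hc hT).1 s hs
    · rintro s ⟨T, hT, hs⟩ t ⟨T', hT', ht⟩ hst
      rcases hchain.total hT hT' with h | h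
      · exact (hc hT').2 (h hs) ht hst
      · exact (hc hT).2 hs (h ht) hst
  obtain ⟨hSP, hmax⟩ := hSmax
  refine ⟨S, countable_of_disjoint_boxes S (fun s hs => (hSP.1 s hs).1) hSP.2,
    fun s hs => (hSP.1 s hs).2, ?_⟩
  intro O hO hne
  by_contra hcon
  push Not at hcon
  obtain ⟨y, hyO, hyU⟩ := hne
  obtain ⟨O', hO', hO'eq⟩ := he.isOpen_iff.mp (hO.inter hU)
  have hy : e y ∈ O' := by
    have : y ∈ e ⁻¹' O' := by rw [hO'eq]; exact ⟨hyO, hyU⟩
    exact this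
  obtain ⟨A, η, hη, hsub⟩ := exists_Box_subset hO' hy
  have hsub2 : e ⁻¹' (Box A (e y) η) ⊆ O ∩ U := by
    intro z hz
    rw [← hO'eq]
    exact hsub hz
  have hdis : ∀ s ∈ S, Disjoint (Box A (e y) η) (Box s.1 s.2.1 s.2.2) := by
    intro s hs
    rw [Set.disjoint_iff_inter_eq_empty]
    by_contra hne
    have hne' := Set.nonempty_iff_ne_empty.mpr hne
    obtain ⟨z', hz, hzr⟩ := hd.inter_open_nonempty _
      ((isOpen_Box A (e y) η).inter (isOpen_Box s.1 s.2.1 s.2.2)) hne'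
    obtain ⟨z, rfl⟩ := hzr
    have h3 : z ∈ O ∩ e ⁻¹' (Box s.1 s.2.1 s.2.2) := ⟨(hsub2 hz.1).1, hz.2⟩
    rw [hcon s hs] at h3
    exact h3
  have hnew : insert (A, e y, η) S ∈ P := by
    refine ⟨?_, ?_⟩
    · intro s hs
      rcases Set.mem_insert_iff.mp hs with rfl | hs
      · exact ⟨hη, fun z hz => (hsub2 hz).2⟩
      · exact hSP.1 s hs
    · apply hSP.2.insert
      intro s hs _
      exact hdis s hs
  have hmem : (A, e y, η) ∈ S := hmax hnew (Set.subset_insert _ _) (Set.mem_insert _ _)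
  have h4 := hdis _ hmem
  have h5 : e y ∈ Box A (e y) η := self_mem_Box A (e y) hη
  exact (Set.disjoint_left.mp h4 h5) h5

/-- A continuous real function on a dense subspace of a product of lines factors continuously
through countably many coordinates. -/
theorem exists_countable_control {Γ D : Type*} [TopologicalSpace D] (e : D → (Γ → ℝ))
    (he : IsInducing e) (hd : DenseRange e) (F : D → ℝ) (hF : Continuous F) :
    ∃ C : Set Γ, C.Countable ∧ ∀ (y : D) (ε : ℝ), 0 < ε → ∃ A : Finset Γ, (A : Set Γ) ⊆ C ∧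
      ∃ η : ℝ, 0 < η ∧ ∀ z : D, (∀ γ ∈ A, |e z γ - e y γ| < η) → |F z - F y| < ε := by
  classical
  choose S1 hS1c hS1s hS1d using fun q : ℚ =>
    exists_countable_dense_boxes e he hd (F ⁻¹' (Set.Iio (q : ℝ))) (isOpen_Iio.preimage hF)
  choose S2 hS2c hS2s hS2d using fun q : ℚ =>
    exists_countable_dense_boxes e he hd (F ⁻¹' (Set.Ioi (q : ℝ))) (isOpen_Ioi.preimage hF)
  refine ⟨⋃ q : ℚ, ((⋃ s ∈ S1 q, (s.1 : Set Γ)) ∪ (⋃ s ∈ S2 q, (s.1 : Set Γ))), ?_, ?_⟩
  · apply Set.countable_iUnion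
    intro q
    apply Set.Countable.union
    · exact (hS1c q).biUnion fun s _ => s.1.countable_toSet
    · exact (hS2c q).biUnion fun s _ => s.1.countable_toSet
  intro y ε hε
  set C : Set Γ := ⋃ q : ℚ, ((⋃ s ∈ S1 q, (s.1 : Set Γ)) ∪ (⋃ s ∈ S2 q, (s.1 : Set Γ))) with hC
  obtain ⟨q1, hq1, hq1'⟩ := exists_rat_btwn (show F y - ε < F y by linarith)
  obtain ⟨q2, hq2, hq2'⟩ := exists_rat_btwn (show F y < F y + ε by linarith)
  have hO : IsOpen (F ⁻¹' (Set.Ioo (q1 : ℝ) q2)) := isOpen_Ioo.preimage hF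
  obtain ⟨O', hO', hO'eq⟩ := he.isOpen_iff.mp hO
  have hy : e y ∈ O' := by
    have : y ∈ e ⁻¹' O' := by rw [hO'eq]; exact ⟨hq1', hq2⟩
    exact this
  obtain ⟨A', η, hη, hsub⟩ := exists_Box_subset hO' hy
  have hsub2 : e ⁻¹' (Box A' (e y) η) ⊆ F ⁻¹' (Set.Ioo (q1 : ℝ) q2) := by
    intro z hz
    rw [← hO'eq]
    exact hsub hz
  -- the key mixing argument
  have key : ∀ (U : Set D) (S : Set (Finset Γ × (Γ → ℝ) × ℝ)),
      (∀ s ∈ S, e ⁻¹' (Box s.1 s.2.1 s.2.2) ⊆ U) →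
      (∀ O : Set D, IsOpen O → (O ∩ U).Nonempty →
        ∃ s ∈ S, (O ∩ e ⁻¹' (Box s.1 s.2.1 s.2.2)).Nonempty) →
      (∀ s ∈ S, (s.1 : Set Γ) ⊆ C) → Disjoint U (F ⁻¹' (Set.Ioo (q1 : ℝ) q2)) →
      ∀ z : D, (∀ γ ∈ A'.filter (· ∈ C), |e z γ - e y γ| < η) → z ∉ U := by
    intro U S hs hdn hSC hdj z hz hzU
    have hOo : IsOpen (e ⁻¹' (Box (A'.filter (· ∈ C)) (e y) η)) :=
      (isOpen_Box _ _ _).preimage he.continuous
    obtain ⟨s, hsS, w, hw1, hw2⟩ := hdn _ hOo ⟨z, hz, hzU⟩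
    let p : Γ → ℝ := fun γ => if γ ∈ C then e w γ else e y γ
    have hp1 : p ∈ Box s.1 s.2.1 s.2.2 := by
      intro γ hγ
      have hγC : γ ∈ C := hSC s hsS hγ
      simp only [p, hγC, if_true]
      exact hw2 γ hγ
    have hp2 : p ∈ Box A' (e y) η := by
      intro γ hγ
      by_cases hγC : γ ∈ C
      · simp only [p, hγC, if_true]
        exact hw1 γ (by simp [hγ, hγC])
      · simp only [p, hγC, if_false]
        simpa using hη
    obtain ⟨x, hx, hxr⟩ := hd.inter_open_nonempty _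
      ((isOpen_Box s.1 s.2.1 s.2.2).inter (isOpen_Box A' (e y) η)) ⟨p, hp1, hp2⟩
    obtain ⟨x', rfl⟩ := hxr
    have h1 : x' ∈ U := hs s hsS hx.1
    have h2 : x' ∈ F ⁻¹' (Set.Ioo (q1 : ℝ) q2) := hsub2 hx.2
    exact (Set.disjoint_left.mp hdj h1) h2
  refine ⟨A'.filter (· ∈ C), ?_, η, hη, ?_⟩
  · intro γ hγ
    have : γ ∈ A'.filter (· ∈ C) := hγ
    exact (Finset.mem_filter.mp this).2
  · intro z hz
    have hz1 : z ∉ F ⁻¹' (Set.Iio (q1 : ℝ)) := by
      refine key _ (S1 q1) (hS1s q1) (hS1d q1) ?_ ?_ z hz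
      · intro s hs γ hγ
        rw [hC]
        exact Set.mem_iUnion.mpr ⟨q1, Or.inl (Set.mem_biUnion hs hγ)⟩
      · rw [Set.disjoint_left]
        intro a ha hb
        exact absurd hb.1 (not_lt.mpr (le_of_lt ha))
    have hz2 : z ∉ F ⁻¹' (Set.Ioi (q2 : ℝ)) := by
      refine key _ (S2 q2) (hS2s q2) (hS2d q2) ?_ ?_ z hz
      · intro s hs γ hγ
        rw [hC]
        exact Set.mem_iUnion.mpr ⟨q2, Or.inr (Set.mem_biUnion hs hγ)⟩
      · rw [Set.disjoint_left]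
        intro a ha hb
        exact absurd hb.2 (not_lt.mpr (le_of_lt ha))
    simp only [Set.mem_preimage, Set.mem_Iio, Set.mem_Ioi, not_lt] at hz1 hz2
    rw [abs_lt]
    constructor <;> linarith

end Pool.Agent.H14WH
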