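import Pool.Agent.H14WH.Strict
import Pool.Agent.H14WH.Bad

set_option autoImplicit false
open Filter Topology MeasureTheory Set
open scoped ZeroAtInfty

namespace Pool.Agent.H14WH

/-- `X` has an equivalent strictly convex norm. -/
def StrictlyConvexRenormable (X : Type*) [NormedAddCommGroup X] [NormedSpace ℝ X] : Prop :=
  ∃ N : X → ℝ, IsEquivNorm N ∧ ∀ x y : X, N x = 1 → N y = 1 → N (x + y) = 2 → x = y

section

variable {X : Type*} [NormedAddCommGroup X] [NormedSpace ℝ X] {N : X → ℝ}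

theorem IsEquivNorm.zero (hN : IsEquivNorm N) : N 0 = 0 := by
  have := hN.smul_eq 0 (0 : X)
  simpa using this

theorem IsEquivNorm.neg (hN : IsEquivNorm N) (x : X) : N (-x) = N x := by
  have := hN.smul_eq (-1) x
  simpa using this

theorem IsEquivNorm.nonneg (hN : IsEquivNorm N) (x : X) : 0 ≤ N x := by
  have h1 := hN.add_le x (-x)
  rw [add_neg_cancel, hN.zero, hN.neg] at h1
  linarith

theorem IsEquivNorm.pos (hN : IsEquivNorm N) {x : X} (hx : x ≠ 0) : 0 < N x := by
  obtain ⟨a, b, ha, _, hab⟩ := hN.equiv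
  have h1 := (hab x).1
  have h2 : 0 < a * ‖x‖ := mul_pos ha (norm_pos_iff.mpr hx)
  linarith

theorem IsEquivNorm.sub_le (hN : IsEquivNorm N) (x y : X) : N x - N y ≤ N (x - y) := by
  have h1 := hN.add_le (x - y) y
  rw [sub_add_cancel] at h1
  linarith

theorem IsEquivNorm.continuous (hN : IsEquivNorm N) : Continuous N := by
  obtain ⟨a, b, _, hb, hab⟩ := hN.equiv
  have hL : LipschitzWith ⟨b, hb.le⟩ N := by
    apply LipschitzWith.of_dist_le_mul
    intro x y
    rw [Real.dist_eq, dist_eq_norm, abs_le]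
    have h1 := hN.sub_le x y
    have h2 := hN.sub_le y x
    have h3 := (hab (x - y)).2
    have h4 := (hab (y - x)).2
    rw [norm_sub_rev] at h4
    constructor
    · show -(b * ‖x - y‖) ≤ N x - N y
      linarith
    · show N x - N y ≤ b * ‖x - y‖
      linarith
  exact hL.continuous

theorem strict_of_unit (hN : IsEquivNorm N)
    (hs : ∀ x y : X, N x = 1 → N y = 1 → N (x + y) = 2 → x = y) :
    ∀ x y, N x = N y → N (x + y) = 2 * N x → x = y := by
  intro x y hxy h2
  by_cases h0 : N x = 0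
  · have hx : x = 0 := by
      by_contra hne
      exact (hN.pos hne).ne' h0
    have hy : y = 0 := by
      by_contra hne
      exact (hN.pos hne).ne' (hxy ▸ h0)
    rw [hx, hy]
  · have hpos : 0 < N x := lt_of_le_of_ne (hN.nonneg x) (Ne.symm h0)
    have h3 : (N x)⁻¹ • x = (N x)⁻¹ • y := by
      apply hs
      · rw [hN.smul_eq, abs_of_pos (inv_pos.mpr hpos), inv_mul_cancel₀ h0]
      · rw [hN.smul_eq, abs_of_pos (inv_pos.mpr hpos), ← hxy, inv_mul_cancel₀ h0]
      · rw [← smul_add, hN.smul_eq, abs_of_pos (inv_pos.mpr hpos), h2]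
        field_simp
    exact smul_right_injective X (inv_ne_zero h0) h3

theorem strict_of_lur (hN : IsEquivNorm N)
    (hlur : ∀ (x : X) (u : ℕ → X), N x = 1 → (∀ n, N (u n) = 1) →
      Tendsto (fun n => N (u n + x)) atTop (𝓝 2) → Tendsto (fun n => N (u n - x)) atTop (𝓝 0)) :
    ∀ x y : X, N x = 1 → N y = 1 → N (x + y) = 2 → x = y := by
  intro x y hx hy hxy
  have h1 := hlur x (fun _ => y) hx (fun _ => hy) (by
    rw [add_comm] at hxy
    simp only [hxy]
    exact tendsto_const_nhds)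
  have h2 : N (y - x) = 0 := tendsto_nhds_unique tendsto_const_nhds h1
  by_contra hne
  have h3 : y - x ≠ 0 := sub_ne_zero.mpr (Ne.symm hne)
  exact (hN.pos h3).ne' h2

/-- A norming functional for the equivalent norm. -/
theorem exists_norming (hN : IsEquivNorm N) (x : X) :
    ∃ f : StrongDual ℝ X, f x = N x ∧ ∀ z, f z ≤ N z := by
  by_cases hx : x = 0
  · refine ⟨0, ?_, fun z => ?_⟩
    · rw [hx, hN.zero]; simp
    · simpa using hN.nonneg z
  · let p : X →ₗ.[ℝ] ℝ := LinearPMap.mkSpanSingleton x (N x) hx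
    obtain ⟨g, hg1, hg2⟩ := exists_extension_of_le_sublinear p N
      (fun c hc z => by rw [hN.smul_eq, abs_of_pos hc]) hN.add_le (by
        intro z
        obtain ⟨c, hc⟩ := Submodule.mem_span_singleton.mp z.2
        have hz : z = ⟨c • x, Submodule.mem_span_singleton.mpr ⟨c, rfl⟩⟩ := Subtype.ext hc.symm
        rw [hz]
        have h1 : p ⟨c • x, Submodule.mem_span_singleton.mpr ⟨c, rfl⟩⟩ = c • N x :=
          LinearPMap.mkSpanSingleton'_apply _ _ _ _ _
        rw [h1]
        show c • N x ≤ N (c • x)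
        rw [hN.smul_eq, smul_eq_mul]
        exact mul_le_mul_of_nonneg_right (le_abs_self c) (hN.nonneg x))
    obtain ⟨a, b, _, hb, hab⟩ := hN.equiv
    have hbound : ∀ z, ‖g z‖ ≤ b * ‖z‖ := by
      intro z
      rw [Real.norm_eq_abs, abs_le]
      constructor
      · have h1 := hg2 (-z)
        rw [map_neg, hN.neg] at h1
        have := (hab z).2
        linarith
      · exact (hg2 z).trans (hab z).2
    refine ⟨g.mkContinuous b hbound, ?_, fun z => hg2 z⟩
    have h1 := hg1 ⟨x, Submodule.mem_span_singleton_self x⟩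
    show g x = N x
    have h2 : p ⟨x, Submodule.mem_span_singleton_self x⟩ = N x :=
      LinearPMap.mkSpanSingleton'_apply_self _ _ _ _
    rw [← h2, ← h1]

theorem kadec_of_lur (hN : IsEquivNorm N)
    (hlur : ∀ (x : X) (u : ℕ → X), N x = 1 → (∀ n, N (u n) = 1) →
      Tendsto (fun n => N (u n + x)) atTop (𝓝 2) → Tendsto (fun n => N (u n - x)) atTop (𝓝 0)) :
    KadecProp N := by
  intro x ε hε
  obtain ⟨a, b, ha, hb, hab⟩ := hN.equiv
  by_contra hcon
  push Not at hcon
  obtain ⟨f, hf1, hf2⟩ := exists_norming hN x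
  have hex : ∀ n : ℕ, ∃ z : X, f x - 1 / ((n : ℝ) + 1) < f z ∧ N z < N x + 1 / ((n : ℝ) + 1) ∧
      ε ≤ ‖z - x‖ := by
    intro n
    have hpos : (0 : ℝ) < 1 / ((n : ℝ) + 1) := by positivity
    obtain ⟨q, hq1, hq2⟩ := exists_rat_btwn (show N x < N x + 1 / ((n : ℝ) + 1) by linarith)
    obtain ⟨z, hz1, hz2, hz3⟩ := hcon q hq1
      {y : WeakSpace ℝ X | f x - 1 / ((n : ℝ) + 1) < (topDualPairing ℝ X).flip y f}
      (isOpen_lt continuous_const (WeakBilin.eval_continuous (topDualPairing ℝ X).flip f))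
      (by
        show f x - 1 / ((n : ℝ) + 1) < f x
        linarith)
    exact ⟨z, hz1, lt_of_le_of_lt hz2 hq2, hz3⟩
  choose z hz1 hz2 hz3 using hex
  have hlim0 : Tendsto (fun n : ℕ => 1 / ((n : ℝ) + 1)) atTop (𝓝 0) :=
    tendsto_one_div_add_atTop_nhds_zero_nat
  have hNz : Tendsto (fun n => N (z n)) atTop (𝓝 (N x)) := by
    apply tendsto_of_tendsto_of_tendsto_of_le_of_le (g := fun n : ℕ => N x - 1 / ((n : ℝ) + 1))
      (h := fun n : ℕ => N x + 1 / ((n : ℝ) + 1))
    · simpa using tendsto_const_nhds.sub hlim0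
    · simpa using tendsto_const_nhds.add hlim0
    · intro n
      have h1 := hz1 n
      rw [hf1] at h1
      have h2 := hf2 (z n)
      show N x - 1 / ((n : ℝ) + 1) ≤ N (z n)
      linarith
    · intro n
      exact (hz2 n).le
  have hfz : Tendsto (fun n => f (z n)) atTop (𝓝 (N x)) := by
    apply tendsto_of_tendsto_of_tendsto_of_le_of_le (g := fun n : ℕ => N x - 1 / ((n : ℝ) + 1))
      (h := fun n : ℕ => N (z n))
    · simpa using tendsto_const_nhds.sub hlim0
    · exact hNz
    · intro n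
      have h1 := hz1 n
      rw [hf1] at h1
      exact h1.le
    · intro n
      exact hf2 (z n)
  by_cases hx : x = 0
  · -- the norms tend to zero
    have h1 : Tendsto (fun n => ‖z n - x‖) atTop (𝓝 0) := by
      rw [hx, hN.zero] at hNz
      apply tendsto_of_tendsto_of_tendsto_of_le_of_le (g := fun _ => (0 : ℝ))
        (h := fun n => a⁻¹ * N (z n)) tendsto_const_nhds
      · simpa using hNz.const_mul a⁻¹
      · intro n; exact norm_nonneg _
      · intro n
        show ‖z n - x‖ ≤ a⁻¹ * N (z n)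
        rw [hx, sub_zero]
        have := (hab (z n)).1
        rw [← div_eq_inv_mul, le_div_iff₀ ha]
        linarith
    have h2 : ε ≤ 0 := ge_of_tendsto' h1 hz3
    linarith
  · have hr : 0 < N x := hN.pos hx
    have hzpos : ∀ᶠ n in atTop, N x / 2 < N (z n) := hNz.eventually (lt_mem_nhds (by linarith))
    -- normalised vectors
    let x1 : X := (N x)⁻¹ • x
    let u : ℕ → X := fun n => if N (z n) = 0 then x1 else (N (z n))⁻¹ • z n
    have hx1 : N x1 = 1 := by
      show N ((N x)⁻¹ • x) = 1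
      rw [hN.smul_eq, abs_of_pos (inv_pos.mpr hr), inv_mul_cancel₀ hr.ne']
    have hu1 : ∀ n, N (u n) = 1 := by
      intro n
      by_cases h0 : N (z n) = 0
      · show N (if N (z n) = 0 then x1 else (N (z n))⁻¹ • z n) = 1
        rw [if_pos h0, hx1]
      · show N (if N (z n) = 0 then x1 else (N (z n))⁻¹ • z n) = 1
        have hp : 0 < N (z n) := lt_of_le_of_ne (hN.nonneg _) (Ne.symm h0)
        rw [if_neg h0, hN.smul_eq, abs_of_pos (inv_pos.mpr hp), inv_mul_cancel₀ h0]
    have hueq : ∀ᶠ n in atTop, u n = (N (z n))⁻¹ • z n := by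
      filter_upwards [hzpos] with n hn
      show (if N (z n) = 0 then x1 else (N (z n))⁻¹ • z n) = _
      rw [if_neg (by linarith : N (z n) ≠ 0)]
    have hsum : Tendsto (fun n => N (u n + x1)) atTop (𝓝 2) := by
      have hlow : Tendsto (fun n => (N (z n))⁻¹ * f (z n) + 1) atTop (𝓝 2) := by
        have h1 : Tendsto (fun n => (N (z n))⁻¹ * f (z n) + 1) atTop
          (𝓝 ((N x)⁻¹ * N x + 1)) := ((hNz.inv₀ hr.ne').mul hfz).add_const 1
        rw [inv_mul_cancel₀ hr.ne'] at h1
        norm_num at h1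
        exact h1
      apply tendsto_of_tendsto_of_tendsto_of_le_of_le' hlow (tendsto_const_nhds (x := (2 : ℝ)))
      · filter_upwards [hueq] with n hn
        have h1 := hf2 (u n + x1)
        rw [map_add, hn, map_smul] at h1
        have h2 : f x1 = 1 := by
          show f ((N x)⁻¹ • x) = 1
          rw [map_smul, hf1, smul_eq_mul, inv_mul_cancel₀ hr.ne']
        rw [h2, smul_eq_mul, ← hn] at h1
        exact h1
      · filter_upwards with n
        have h1 := hN.add_le (u n) x1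
        rw [hu1, hx1] at h1
        linarith
    have hconv := hlur x1 u hx1 hu1 hsum
    have hfinal : Tendsto (fun n => ‖z n - x‖) atTop (𝓝 0) := by
      have h1 : Tendsto (fun n => a⁻¹ * (N (z n) * N (u n - x1) + |N (z n) - N x|)) atTop (𝓝 0) := by
        have h2 : Tendsto (fun n => |N (z n) - N x|) atTop (𝓝 0) := by
          have := (hNz.sub_const (N x)).abs
          simpa using this
        have h3 := ((hNz.mul hconv).add h2).const_mul a⁻¹
        simpa using h3
      apply squeeze_zero' (Eventually.of_forall fun n => norm_nonneg _) _ h1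
      filter_upwards [hueq, hzpos] with n hn hpn
      have hp : 0 < N (z n) := by linarith
      have h4 : z n - x = N (z n) • (u n - x1) + (N (z n) - N x) • x1 := by
        rw [hn, smul_sub, smul_smul, mul_inv_cancel₀ hp.ne', one_smul, sub_smul]
        have : N x • x1 = x := by
          show N x • ((N x)⁻¹ • x) = x
          rw [smul_smul, mul_inv_cancel₀ hr.ne', one_smul]
        rw [this]
        abel
      have h5 : N (z n - x) ≤ N (z n) * N (u n - x1) + |N (z n) - N x| := by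
        rw [h4]
        refine (hN.add_le _ _).trans ?_
        rw [hN.smul_eq, hN.smul_eq, hx1, mul_one, abs_of_pos hp]
      have h6 := (hab (z n - x)).1
      rw [← div_eq_inv_mul, le_div_iff₀ ha]
      linarith
    have h2 : ε ≤ 0 := ge_of_tendsto' hfinal hz3
    linarith

end

section

variable {T : Type*} [PartialOrder T]

/-- In an everywhere branching tree in which all increasing sequences are bounded every increasing
real function is constant on an ever-branching set. -/
theorem exists_constant_everBranching [Nonempty T] (hcl : ∀ f : ℕ → T, Monotone f → ∃ u, ∀ n, f n ≤ u)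
    (hbr : ∀ s : T, ∃ a b, s ≤ a ∧ s ≤ b ∧ ¬ a ≤ b ∧ ¬ b ≤ a) (ρ : T → ℝ) (hρ : Monotone ρ) :
    ∃ E : Set T, EverBranching E ∧ ∀ s ∈ E, ∀ t ∈ E, ρ s = ρ t := by
  -- bounded above some node
  have hB : ∃ s : T, BddAbove (ρ '' Set.Ici s) := by
    by_contra hcon
    push Not at hcon
    have hex : ∀ (s : T) (n : ℕ), ∃ t, s ≤ t ∧ (n : ℝ) ≤ ρ t := by
      intro s n
      by_contra hno
      push Not at hno
      exact hcon s ⟨n, by rintro _ ⟨t, ht, rfl⟩; exact (hno t ht).le⟩
    choose F hF1 hF2 using hex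
    let f : ℕ → T := fun n => Nat.rec (Classical.arbitrary T) (fun n s => F s n) n
    have hfs : ∀ n, f (n + 1) = F (f n) n := fun n => rfl
    have hmono : Monotone f := monotone_nat_of_le_succ fun n => by rw [hfs]; exact hF1 _ _
    obtain ⟨u, hu⟩ := hcl f hmono
    obtain ⟨n, hn⟩ := exists_nat_gt (ρ u)
    have h1 : (n : ℝ) ≤ ρ (f (n + 1)) := by rw [hfs]; exact hF2 _ _
    have h2 := hρ (hu (n + 1))
    linarith
  obtain ⟨s0, hs0⟩ := hB
  -- chase the supremum
  let M : T → ℝ := fun s => sSup (ρ '' Set.Ici s)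
  have hbdd : ∀ s, s0 ≤ s → BddAbove (ρ '' Set.Ici s) := fun s hs =>
    hs0.mono (Set.image_mono (Set.Ici_subset_Ici.mpr hs))
  have hex : ∀ (s : T) (n : ℕ), ∃ t, s ≤ t ∧ (s0 ≤ s → M s - 1 / ((n : ℝ) + 1) < ρ t) := by
    intro s n
    by_cases hs : s0 ≤ s
    · have hlt : M s - 1 / ((n : ℝ) + 1) < sSup (ρ '' Set.Ici s) := by
        have : (0 : ℝ) < 1 / ((n : ℝ) + 1) := by positivity
        show M s - 1 / ((n : ℝ) + 1) < M s
        linarith
      obtain ⟨_, ⟨t, ht, rfl⟩, h⟩ := exists_lt_of_lt_csSup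
        (⟨ρ s, s, le_refl s, rfl⟩ : (ρ '' Set.Ici s).Nonempty) hlt
      exact ⟨t, ht, fun _ => h⟩
    · exact ⟨s, le_refl s, fun h => absurd h hs⟩
  choose F hF1 hF2 using hex
  let f : ℕ → T := fun n => Nat.rec s0 (fun n s => F s n) n
  have hfs : ∀ n, f (n + 1) = F (f n) n := fun n => rfl
  have hmono : Monotone f := monotone_nat_of_le_succ fun n => by rw [hfs]; exact hF1 _ _
  have hf0 : ∀ n, s0 ≤ f n := fun n => hmono (Nat.zero_le n)
  obtain ⟨u, hu⟩ := hcl f hmono
  have hconst : ∀ t, u ≤ t → ρ t = ρ u := by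
    intro t ht
    apply le_antisymm _ (hρ ht)
    apply le_of_forall_pos_le_add
    intro δ hδ
    obtain ⟨n, hn⟩ := exists_nat_one_div_lt hδ
    have h1 : M (f n) - 1 / ((n : ℝ) + 1) < ρ (f (n + 1)) := by rw [hfs]; exact hF2 _ _ (hf0 n)
    have h2 : ρ t ≤ M (f n) := le_csSup (hbdd _ (hf0 n)) ⟨t, (hu n).trans ht, rfl⟩
    have h3 := hρ (hu (n + 1))
    linarith
  refine ⟨Set.Ici u, ⟨⟨u, le_refl u⟩, ?_⟩, ?_⟩
  · intro s hs
    obtain ⟨a, b, h1, h2, h3, h4⟩ := hbr s
    exact ⟨a, le_trans hs h1, b, le_trans hs h2, h1, h2, h3, h4⟩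
  · intro s hs t ht
    rw [hconst s hs, hconst t ht]

end

/-- Adding up an increasing function without constant ever-branching sets and one without bad
points. -/
theorem exists_combined {T : Type*} [PartialOrder T] (ρ₁ : T → ℝ) (hρ₁ : Monotone ρ₁)
    (hE : ∀ E : Set T, EverBranching E → ∃ s ∈ E, ∃ t ∈ E, ρ₁ s ≠ ρ₁ t)
    (ρ₂ : T → ℝ) (hρ₂ : Monotone ρ₂) (hgood : ∀ t, GoodAt ρ₂ t) :
    ∃ ρ : T → ℝ, Monotone ρ ∧ (∀ E : Set T, EverBranching E → ∃ s ∈ E, ∃ t ∈ E, ρ s ≠ ρ t) ∧
      ∀ t : T, ¬ IsBadPoint ρ t := by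
  refine ⟨fun t => ρ₁ t + ρ₂ t, hρ₁.add hρ₂, ?_, ?_⟩
  · intro E hEb
    by_contra hcon
    push Not at hcon
    obtain ⟨⟨e0, he0⟩, hbr⟩ := hEb
    have hE0 : EverBranching {e | e ∈ E ∧ e0 ≤ e} := by
      refine ⟨⟨e0, he0, le_refl _⟩, ?_⟩
      rintro s ⟨hs, h0s⟩
      obtain ⟨a, ha, b, hb, h1, h2, h3, h4⟩ := hbr s hs
      exact ⟨a, ⟨ha, h0s.trans h1⟩, b, ⟨hb, h0s.trans h2⟩, h1, h2, h3, h4⟩
    have hconst : ∀ e, e ∈ E → e0 ≤ e → ρ₁ e = ρ₁ e0 := by
      intro e he h0
      have h1 : ρ₁ e + ρ₂ e = ρ₁ e0 + ρ₂ e0 := hcon e he e0 he0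
      have h2 := hρ₁ h0
      have h3 := hρ₂ h0
      linarith
    obtain ⟨s, hs, t, ht, hne⟩ := hE _ hE0
    exact hne ((hconst s hs.1 hs.2).trans (hconst t ht.1 ht.2).symm)
  · rintro t ⟨u, hinj, hcov, hlim⟩
    obtain ⟨η, hη, hfin⟩ := hgood t
    have hev : ∀ᶠ n in atTop, ρ₁ (u n) + ρ₂ (u n) < ρ₁ t + ρ₂ t + η :=
      hlim.eventually (gt_mem_nhds (by linarith))
    obtain ⟨n0, hn0⟩ := eventually_atTop.mp hev
    have hinf : (u '' Set.Ici n0).Infinite := (Set.Ici_infinite n0).image hinj.injOn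
    apply hinf
    apply hfin.subset
    rintro _ ⟨n, hn, rfl⟩
    refine ⟨hcov n, ?_⟩
    have h1 := hn0 n hn
    have h2 := hρ₁ (hcov n).le
    linarith

end Pool.Agent.H14WH
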