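import Mathlib

set_option autoImplicit false
open Filter Topology MeasureTheory Set

namespace Pool.Agent.H14WH

/-- Nested bounded nonempty convex sets in a Hilbert space have a Cauchy selection. -/
theorem exists_cauchy_selection {H : Type*} [NormedAddCommGroup H] [InnerProductSpace ℝ H]
    (C : ℕ → Set H) (hne : ∀ j, (C j).Nonempty) (hconv : ∀ j, Convex ℝ (C j)) (hanti : Antitone C)
    (K : ℝ) (hK : ∀ j, ∀ y ∈ C j, ‖y‖ ≤ K) :
    ∃ y : ℕ → H, (∀ j, y j ∈ C j) ∧ CauchySeq y := by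
  set d : ℕ → ℝ := fun j => Metric.infDist (0 : H) (C j) with hd
  have hmono : Monotone d := by
    intro i j hij
    exact Metric.infDist_le_infDist_of_subset (hanti hij) (hne j)
  have hbdd : ∀ j, d j ≤ K := by
    intro j
    obtain ⟨y, hy⟩ := hne j
    have h1 := Metric.infDist_le_dist_of_mem (x := (0 : H)) hy
    rw [dist_zero_left] at h1
    exact h1.trans (hK j y hy)
  have hd0 : ∀ j, 0 ≤ d j := fun j => Metric.infDist_nonneg
  obtain ⟨D, hD⟩ : ∃ D, Tendsto d atTop (𝓝 D) :=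
    ⟨_, tendsto_atTop_ciSup hmono ⟨K, by rintro _ ⟨j, rfl⟩; exact hbdd j⟩⟩
  have hdD : ∀ j, d j ≤ D := fun j => hmono.ge_of_tendsto hD j
  have hex : ∀ j, ∃ y ∈ C j, ‖y‖ < d j + 1 / ((j : ℝ) + 1) := by
    intro j
    have h1 : Metric.infDist (0 : H) (C j) < d j + 1 / ((j : ℝ) + 1) := by
      have : (0 : ℝ) < 1 / ((j : ℝ) + 1) := by positivity
      show d j < _
      linarith
    obtain ⟨y, hy, hy2⟩ := (Metric.infDist_lt_iff (hne j)).mp h1
    rw [dist_zero_left] at hy2
    exact ⟨y, hy, hy2⟩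
  choose y hy hyn using hex
  refine ⟨y, hy, ?_⟩
  set b : ℕ → ℝ := fun N => Real.sqrt (4 * (D + 1 / ((N : ℝ) + 1)) ^ 2 - 4 * d N ^ 2) with hb
  apply cauchySeq_of_le_tendsto_0 b
  · intro n m N hn hm
    have hmid : (1 / 2 : ℝ) • y n + (1 / 2 : ℝ) • y m ∈ C N :=
      hconv N (hanti hn (hy n)) (hanti hm (hy m)) (by norm_num) (by norm_num) (by norm_num)
    have h1 : d N ≤ ‖(1 / 2 : ℝ) • y n + (1 / 2 : ℝ) • y m‖ := by
      have := Metric.infDist_le_dist_of_mem (x := (0 : H)) hmid
      rwa [dist_zero_left] at this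
    have h2 : ‖(1 / 2 : ℝ) • y n + (1 / 2 : ℝ) • y m‖ = (1 / 2) * ‖y n + y m‖ := by
      rw [← smul_add, norm_smul]; norm_num
    have hN : (0 : ℝ) < 1 / ((N : ℝ) + 1) := by positivity
    have hle : ∀ k : ℕ, N ≤ k → ‖y k‖ ≤ D + 1 / ((N : ℝ) + 1) := by
      intro k hk
      have h3 : 1 / ((k : ℝ) + 1) ≤ 1 / ((N : ℝ) + 1) := by
        apply one_div_le_one_div_of_le (by positivity)
        have : (N : ℝ) ≤ k := by exact_mod_cast hk
        linarith
      have := hyn k
      have := hdD k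
      linarith
    have hn' := hle n hn
    have hm' := hle m hm
    have hpar := parallelogram_law_with_norm ℝ (y n) (y m)
    rw [dist_eq_norm]
    apply Real.le_sqrt_of_sq_le
    have h5 : 4 * d N ^ 2 ≤ ‖y n + y m‖ * ‖y n + y m‖ := by
      have h6 : 2 * d N ≤ ‖y n + y m‖ := by rw [h2] at h1; linarith
      have := hd0 N
      nlinarith [norm_nonneg (y n + y m)]
    have h7 : ‖y n‖ * ‖y n‖ ≤ (D + 1 / ((N : ℝ) + 1)) ^ 2 := by
      nlinarith [norm_nonneg (y n)]
    have h8 : ‖y m‖ * ‖y m‖ ≤ (D + 1 / ((N : ℝ) + 1)) ^ 2 := by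
      nlinarith [norm_nonneg (y m)]
    nlinarith
  · have h1 : Tendsto (fun N : ℕ => 4 * (D + 1 / ((N : ℝ) + 1)) ^ 2 - 4 * d N ^ 2) atTop
        (𝓝 (4 * (D + 0) ^ 2 - 4 * D ^ 2)) := by
      apply Tendsto.sub
      · exact ((tendsto_const_nhds.add tendsto_one_div_add_atTop_nhds_zero_nat).pow 2).const_mul 4
      · exact (hD.pow 2).const_mul 4
    have h2 := h1.sqrt
    have h3 : Real.sqrt (4 * (D + 0) ^ 2 - 4 * D ^ 2) = 0 := by
      rw [add_zero, sub_self, Real.sqrt_zero]
    rwa [h3] at h2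

/-- A functional which is small on the common kernel of finitely many functionals is close to their
span. -/
theorem exists_combination_near {E : Type*} [NormedAddCommGroup E] [NormedSpace ℝ E] {J : ℕ}
    (m : StrongDual ℝ E) (L : Fin J → StrongDual ℝ E) (δ : ℝ) (hδ : 0 ≤ δ)
    (hJ : ∀ f : E, ‖f‖ ≤ 1 → (∀ i, L i f = 0) → |m f| ≤ δ) :
    ∃ c : Fin J → ℝ, ‖m - ∑ i, c i • L i‖ ≤ δ := by
  let W : Submodule ℝ E := ⨅ i : Fin J, LinearMap.ker (L i).toLinearMap
  have hWmem : ∀ f, f ∈ W ↔ ∀ i : Fin J, L i f = 0 := by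
    intro f
    simp [W, Submodule.mem_iInf]
  let mW : StrongDual ℝ W := m.comp W.subtypeL
  have hmW : ‖mW‖ ≤ δ := by
    apply ContinuousLinearMap.opNorm_le_bound _ hδ
    intro f
    by_cases hf : ‖(f : E)‖ = 0
    · have h0 : (f : E) = 0 := norm_eq_zero.mp hf
      have : mW f = 0 := by
        show m (f : E) = 0
        rw [h0, map_zero]
      rw [this, norm_zero]
      positivity
    · have hpos : 0 < ‖(f : E)‖ := lt_of_le_of_ne (norm_nonneg _) (Ne.symm hf)
      have h1 := hJ (‖(f : E)‖⁻¹ • (f : E)) (by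
        rw [norm_smul, norm_inv, norm_norm, inv_mul_cancel₀ hf]) (by
        intro i
        have := (hWmem f).mp f.2 i
        rw [map_smul, this, smul_zero])
      rw [map_smul, smul_eq_mul, abs_mul, abs_inv, abs_norm] at h1
      show ‖m (f : E)‖ ≤ δ * ‖(f : E)‖
      rw [Real.norm_eq_abs]
      rw [inv_mul_le_iff₀ hpos] at h1
      linarith [h1, mul_comm δ ‖(f : E)‖]
  obtain ⟨m', hm'1, hm'2⟩ := exists_extension_norm_eq W mW
  have hspan : (m - m').toLinearMap ∈ Submodule.span ℝ (Set.range fun i : Fin J =>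
      (L i).toLinearMap) := by
    apply mem_span_of_iInf_ker_le_ker
    intro f hf
    have hf' : f ∈ W := hf
    rw [LinearMap.mem_ker]
    show m f - m' f = 0
    have := hm'1 ⟨f, hf'⟩
    have h2 : mW ⟨f, hf'⟩ = m f := rfl
    rw [h2] at this
    simp only at this
    rw [this, sub_self]
  rw [Submodule.mem_span_range_iff_exists_fun] at hspan
  obtain ⟨c, hc⟩ := hspan
  refine ⟨c, ?_⟩
  have h3 : m - ∑ i, c i • L i = m' := by
    ext f
    have h4 := LinearMap.congr_fun hc f
    rw [LinearMap.sum_apply] at h4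
    have h5 : ∑ i, c i * L i f = m f - m' f := h4
    rw [sub_apply, sum_apply]
    have h6 : ∑ i, (c i • L i) f = ∑ i, c i * L i f := rfl
    rw [h6, h5]
    ring
  rw [h3, hm'2]
  exact hmW

/-- The range of an isometry on a complete space is closed. -/
theorem exists_eq_of_approx {E F : Type*} [NormedAddCommGroup E] [NormedSpace ℝ E] [CompleteSpace E]
    [NormedAddCommGroup F] [NormedSpace ℝ F] (φ : E →ₗᵢ[ℝ] F) (m : F)
    (h : ∀ δ : ℝ, 0 < δ → ∃ z : E, ‖m - φ z‖ ≤ δ) : ∃ L : E, φ L = m := by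
  have hrange : m ∈ Set.range φ := by
    have hclosed : IsClosed (Set.range φ) := φ.isometry.isClosedEmbedding.isClosed_range
    rw [← hclosed.closure_eq, Metric.mem_closure_iff]
    intro ε hε
    obtain ⟨z, hz⟩ := h (ε / 2) (by linarith)
    refine ⟨_, ⟨z, rfl⟩, ?_⟩
    rw [dist_eq_norm]
    linarith
  exact hrange

/-- Dominated convergence for scalarly almost everywhere convergent sequences of functions with
countable range: the limit is Pettis integrable. -/
theorem pettis_dominated {Ω X : Type*} [MeasurableSpace Ω] (P : Measure Ω) [IsFiniteMeasure P]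
    [NormedAddCommGroup X] [NormedSpace ℝ X] [CompleteSpace X]
    (x : ℕ → Ω → X) (v : ℕ → X) (hxv : ∀ k ω, x k ω ∈ Set.range v)
    (hmeas : ∀ (f : StrongDual ℝ X) (k : ℕ), Measurable fun ω => f (x k ω))
    (R : ℝ) (hR : ∀ k ω, ‖x k ω‖ ≤ R) (w : Ω → X)
    (hw : ∀ f : StrongDual ℝ X, ∀ᵐ ω ∂P, Tendsto (fun k => f (x k ω)) atTop (𝓝 (f (w ω)))) :
    ∃ L : X, ∀ f : StrongDual ℝ X, f L = ∫ ω, f (w ω) ∂P := by
  classical
  by_cases hΩ : Nonempty Ω
  swap
  · refine ⟨0, fun f => ?_⟩
    have : P = 0 := by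
      rw [not_nonempty_iff] at hΩ
      exact Measure.eq_zero_of_isEmpty P
    simp [this]
  have hR0 : 0 ≤ R := (norm_nonneg _).trans (hR 0 hΩ.some)
  have hsm : ∀ f : StrongDual ℝ X, AEStronglyMeasurable (fun ω => f (w ω)) P := fun f =>
    aestronglyMeasurable_of_tendsto_ae atTop (fun k => (hmeas f k).aestronglyMeasurable) (hw f)
  have hbd : ∀ f : StrongDual ℝ X, ∀ᵐ ω ∂P, ‖f (w ω)‖ ≤ ‖f‖ * R := by
    intro f
    filter_upwards [hw f] with ω hω
    apply le_of_tendsto hω.norm
    exact Eventually.of_forall fun k => (f.le_opNorm _).trans (by gcongr; exact hR k ω)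
  have hmemLp : ∀ f : StrongDual ℝ X, MemLp (fun ω => f (w ω)) 2 P := fun f =>
    MemLp.of_bound (hsm f) (‖f‖ * R) (hbd f)
  have hint : ∀ f : StrongDual ℝ X, Integrable (fun ω => f (w ω)) P := fun f =>
    Integrable.of_bound (hsm f) (‖f‖ * R) (hbd f)
  -- the linear functional
  let m0 : StrongDual ℝ X →ₗ[ℝ] ℝ :=
    { toFun := fun f => ∫ ω, f (w ω) ∂P
      map_add' := by
        intro f g
        simp only [add_apply]
        exact integral_add (hint f) (hint g)
      map_smul' := by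
        intro c f
        simp only [smul_apply, RingHom.id_apply]
        exact integral_smul c _ }
  let m : StrongDual ℝ (StrongDual ℝ X) := m0.mkContinuous (R * P.real Set.univ) (by
    intro f
    have h1 : ‖∫ ω, f (w ω) ∂P‖ ≤ (‖f‖ * R) * P.real Set.univ :=
      norm_integral_le_of_norm_le_const (hbd f)
    calc ‖m0 f‖ ≤ (‖f‖ * R) * P.real Set.univ := h1
      _ = R * P.real Set.univ * ‖f‖ := by ring)
  have hm : ∀ f, m f = ∫ ω, f (w ω) ∂P := fun f => rfl
  -- the key claim
  have key : ∀ δ : ℝ, 0 < δ → ∃ J : ℕ, ∀ f : StrongDual ℝ X, ‖f‖ ≤ 1 → (∀ i < J, f (v i) = 0) →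
      |m f| ≤ δ := by
    intro δ hδ
    by_contra hcon
    push Not at hcon
    have hex : ∀ J : ℕ, ∃ f : StrongDual ℝ X, ‖f‖ ≤ 1 ∧ (∀ i < J, f (v i) = 0) ∧ δ ≤ m f := by
      intro J
      obtain ⟨f, hf1, hf2, hf3⟩ := hcon J
      rcases le_or_gt 0 (m f) with h | h
      · refine ⟨f, hf1, hf2, ?_⟩
        rw [abs_of_nonneg h] at hf3
        exact hf3.le
      · refine ⟨-f, by rwa [norm_neg], fun i hi => by simp [hf2 i hi], ?_⟩
        rw [abs_of_neg h] at hf3
        rw [map_neg]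
        exact hf3.le
    choose φ hφ1 hφ2 hφ3 using hex
    let T : StrongDual ℝ X → Lp ℝ 2 P := fun f => (hmemLp f).toLp _
    have hTadd : ∀ f g, T (f + g) = T f + T g := by
      intro f g
      rfl
    have hTsmul : ∀ (c : ℝ) f, T (c • f) = c • T f := by
      intro c f
      rfl
    let Tl : StrongDual ℝ X →ₗ[ℝ] Lp ℝ 2 P :=
      { toFun := T
        map_add' := hTadd
        map_smul' := hTsmul }
    let D : ℕ → Set (StrongDual ℝ X) := fun j => convexHull ℝ (φ '' Set.Ici j)
    let S0 : ℕ → Set (StrongDual ℝ X) := fun j =>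
      {f | ‖f‖ ≤ 1 ∧ (∀ i < j, f (v i) = 0) ∧ δ ≤ m f}
    have hS0conv : ∀ j, Convex ℝ (S0 j) := by
      intro j f hf g hg a b ha hb hab
      refine ⟨?_, ?_, ?_⟩
      · calc ‖a • f + b • g‖ ≤ ‖a • f‖ + ‖b • g‖ := norm_add_le _ _
          _ = a * ‖f‖ + b * ‖g‖ := by
            rw [norm_smul, norm_smul, Real.norm_of_nonneg ha, Real.norm_of_nonneg hb]
          _ ≤ a * 1 + b * 1 := by
            have := hf.1; have := hg.1
            gcongr
          _ = 1 := by linarith
      · intro i hi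
        simp [hf.2.1 i hi, hg.2.1 i hi]
      · rw [map_add, map_smul, map_smul, smul_eq_mul, smul_eq_mul]
        have h1 := hf.2.2
        have h2 := hg.2.2
        nlinarith
    have hDS : ∀ j, D j ⊆ S0 j := by
      intro j
      apply convexHull_min _ (hS0conv j)
      rintro _ ⟨i, hi, rfl⟩
      exact ⟨hφ1 i, fun k hk => hφ2 i k (lt_of_lt_of_le hk hi), hφ3 i⟩
    obtain ⟨K, hK⟩ : ∃ K : ℝ, ∀ f, ‖f‖ ≤ 1 → ‖T f‖ ≤ K := by
      refine ⟨(measureUnivNNReal P : ℝ) ^ ((2 : ENNReal).toReal⁻¹) * R, fun f hf => ?_⟩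
      · apply Lp.norm_le_of_ae_bound (C := R) hR0
        filter_upwards [(hmemLp f).coeFn_toLp, hbd f] with ω h1 h2
        show ‖T f ω‖ ≤ R
        rw [h1]
        calc ‖f (w ω)‖ ≤ ‖f‖ * R := h2
          _ ≤ 1 * R := by gcongr
          _ = R := one_mul R
    obtain ⟨y, hy, hyC⟩ := exists_cauchy_selection (fun j => Tl '' (D j))
      (fun j => by
        refine ⟨Tl (φ j), φ j, subset_convexHull ℝ _ ⟨j, le_refl j, rfl⟩, rfl⟩)
      (fun j => (convex_convexHull ℝ _).linear_image Tl)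
      (by
        intro i j hij
        apply Set.image_mono
        apply convexHull_mono
        apply Set.image_mono
        exact Set.Ici_subset_Ici.mpr hij)
      K (by
        rintro j _ ⟨f, hf, rfl⟩
        exact hK f (hDS j hf).1)
    choose F hF hFy using hy
    obtain ⟨u, hu⟩ := cauchySeq_tendsto_of_complete hyC
    have hmeasure := tendstoInMeasure_of_tendsto_Lp hu
    obtain ⟨ns, hns, hae⟩ := hmeasure.exists_seq_tendsto_ae
    -- functional cluster point
    let G : ℕ → WeakDual ℝ X := fun i => StrongDual.toWeakDual (F (ns i))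
    have hGball : ∀ i, G i ∈ WeakDual.toStrongDual ⁻¹' (Metric.closedBall (0 : StrongDual ℝ X) 1) := by
      intro i
      show F (ns i) ∈ Metric.closedBall (0 : StrongDual ℝ X) 1
      rw [mem_closedBall_zero_iff]
      exact (hDS _ (hF (ns i))).1
    obtain ⟨g, hg1, hg2⟩ := (WeakDual.isCompact_closedBall (𝕜 := ℝ) (0 : StrongDual ℝ X) 1).ultrafilter_le_nhds'
      ((Filter.hyperfilter ℕ).map G) (by
        rw [Ultrafilter.mem_map]
        exact Filter.univ_mem' hGball)
    have hgt : ∀ z : X, Tendsto (fun i => F (ns i) z) (Filter.hyperfilter ℕ) (𝓝 (g z)) := by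
      intro z
      have h1 : Tendsto G (Filter.hyperfilter ℕ) (𝓝 g) := hg2
      exact ((WeakDual.eval_continuous z).tendsto g).comp h1
    have hgv : ∀ i, g (v i) = 0 := by
      intro i
      have h1 : Tendsto (fun j => F (ns j) (v i)) atTop (𝓝 0) := by
        apply tendsto_const_nhds.congr'
        filter_upwards [eventually_gt_atTop i] with j hj
        exact ((hDS _ (hF (ns j))).2.1 i (lt_of_lt_of_le hj (hns.id_le j))).symm
      exact tendsto_nhds_unique (hgt (v i)) (h1.mono_left Nat.hyperfilter_le_atTop)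
    let g' : StrongDual ℝ X := WeakDual.toStrongDual g
    have hgx : ∀ k ω, g' (x k ω) = 0 := by
      intro k ω
      obtain ⟨i, hi⟩ := hxv k ω
      rw [← hi]
      exact hgv i
    have hfun : ∀ j, ∀ᵐ ω ∂P, (y j : Ω → ℝ) ω = F j (w ω) := by
      intro j
      rw [← hFy j]
      exact (hmemLp (F j)).coeFn_toLp
    have hall : ∀ᵐ ω ∂P, ∀ j, (y j : Ω → ℝ) ω = F j (w ω) := ae_all_iff.mpr hfun
    have hu0 : ∀ᵐ ω ∂P, Tendsto (fun i => F (ns i) (w ω)) atTop (𝓝 0) := by
      filter_upwards [hw g', hae, hall] with ω h1 h2 h3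
      have h4 : g' (w ω) = 0 := by
        apply tendsto_nhds_unique h1
        simp only [hgx]
        exact tendsto_const_nhds
      have h5 : Tendsto (fun i => F (ns i) (w ω)) atTop (𝓝 (u ω)) := by
        refine h2.congr fun i => ?_
        exact h3 (ns i)
      have h6 : u ω = g' (w ω) :=
        tendsto_nhds_unique (h5.mono_left Nat.hyperfilter_le_atTop) (hgt (w ω))
      rw [h6, h4] at h5
      exact h5
    have hlim : Tendsto (fun i => ∫ ω, F (ns i) (w ω) ∂P) atTop (𝓝 (∫ _, (0 : ℝ) ∂P)) := by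
      apply tendsto_integral_of_dominated_convergence (fun _ => R)
      · intro i; exact hsm _
      · exact integrable_const _
      · intro i
        filter_upwards [hbd (F (ns i))] with ω h
        calc ‖F (ns i) (w ω)‖ ≤ ‖F (ns i)‖ * R := h
          _ ≤ 1 * R := by
            have := (hDS _ (hF (ns i))).1
            gcongr
          _ = R := one_mul R
      · exact hu0
    rw [integral_zero] at hlim
    have hge : δ ≤ 0 := by
      apply ge_of_tendsto hlim
      exact Eventually.of_forall fun i => (hDS _ (hF (ns i))).2.2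
    linarith
  -- approximation by elements of X
  have happrox : ∀ δ : ℝ, 0 < δ → ∃ z : X, ‖m - NormedSpace.inclusionInDoubleDual ℝ X z‖ ≤ δ := by
    intro δ hδ
    obtain ⟨J, hJ⟩ := key δ hδ
    obtain ⟨c, hc⟩ := exists_combination_near m
      (fun i : Fin J => NormedSpace.inclusionInDoubleDual ℝ X (v i)) δ hδ.le (by
        intro f hf hfi
        exact hJ f hf fun i hi => hfi ⟨i, hi⟩)
    refine ⟨∑ i, c i • v i, ?_⟩
    have h3 : NormedSpace.inclusionInDoubleDual ℝ X (∑ i, c i • v i) =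
        ∑ i, c i • NormedSpace.inclusionInDoubleDual ℝ X (v i) := by
      rw [map_sum]
      exact Finset.sum_congr rfl fun i _ => map_smul _ _ _
    rw [h3]
    exact hc
  obtain ⟨L, hL⟩ := exists_eq_of_approx
    (NormedSpace.inclusionInDoubleDualLi (𝕜 := ℝ) (E := X)) m happrox
  refine ⟨L, fun f => ?_⟩
  have h1 : (NormedSpace.inclusionInDoubleDualLi (𝕜 := ℝ) (E := X)) L f = f L := rfl
  rw [← h1, hL, hm]

end Pool.Agent.H14WH
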