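import Pool.Agent.H14WH.Defs

set_option autoImplicit false
open Filter Topology Set
open scoped ZeroAtInfty

namespace Pool.Agent.H14WH

section

variable {T : Type*} [PartialOrder T]

theorem IsHausdorffTree.incomp_of_le (hT : IsHausdorffTree T) {a b a' b' : T} (ha : a ≤ a')
    (hb : b ≤ b') (h1 : ¬ a ≤ b) (h2 : ¬ b ≤ a) : ¬ a' ≤ b' ∧ ¬ b' ≤ a' := by
  constructor
  · intro h
    rcases hT.chain b' a b (ha.trans h) hb with h3 | h3
    · exact h1 h3
    · exact h2 h3
  · intro h
    rcases hT.chain a' a b ha (hb.trans h) with h3 | h3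
    · exact h1 h3
    · exact h2 h3

variable [τ : TopologicalSpace T]

theorem isOpen_Iic (hτ : IsTreeTopology T τ) (t : T) : IsOpen (Set.Iic t) := by
  rw [hτ]
  apply TopologicalSpace.isOpen_generateFrom_of_mem
  right
  exact ⟨t, rfl⟩

theorem isOpen_Ioc' (hτ : IsTreeTopology T τ) (s t : T) : IsOpen (Set.Ioc s t) := by
  rw [hτ]
  apply TopologicalSpace.isOpen_generateFrom_of_mem
  left
  exact ⟨s, t, rfl⟩

theorem exists_Ioc_subset (hT : IsHausdorffTree T) (hτ : IsTreeTopology T τ) {O : Set T}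
    (hO : IsOpen O) : ∀ t ∈ O, Set.Iic t ⊆ O ∨ ∃ r, r < t ∧ Set.Ioc r t ⊆ O := by
  have hO' : TopologicalSpace.GenerateOpen
      {S | (∃ a b : T, S = Set.Ioc a b) ∨ ∃ b : T, S = Set.Iic b} O := by
    have h1 : IsOpen[TopologicalSpace.generateFrom
      {S | (∃ a b : T, S = Set.Ioc a b) ∨ ∃ b : T, S = Set.Iic b}] O := by
      rw [← show τ = _ from hτ]
      exact hO
    exact h1
  induction hO' with
  | basic S hS =>
    intro t ht
    rcases hS with ⟨a, b, rfl⟩ | ⟨b, rfl⟩
    · right
      exact ⟨a, ht.1, fun u hu => ⟨hu.1, hu.2.trans ht.2⟩⟩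
    · left
      exact fun u hu => le_trans hu ht
  | univ => exact fun t _ => Or.inl (Set.subset_univ _)
  | inter S1 S2 h1 h2 ih1 ih2 =>
    have e1 : IsOpen S1 := by rw [show τ = _ from hτ]; exact h1
    have e2 : IsOpen S2 := by rw [show τ = _ from hτ]; exact h2
    intro t ht
    rcases ih1 e1 t ht.1 with g1 | ⟨r1, hr1, g1⟩
    · rcases ih2 e2 t ht.2 with g2 | ⟨r2, hr2, g2⟩
      · left; exact fun u hu => ⟨g1 hu, g2 hu⟩
      · right; exact ⟨r2, hr2, fun u hu => ⟨g1 hu.2, g2 hu⟩⟩
    · rcases ih2 e2 t ht.2 with g2 | ⟨r2, hr2, g2⟩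
      · right; exact ⟨r1, hr1, fun u hu => ⟨g1 hu, g2 hu.2⟩⟩
      · right
        rcases hT.chain t r1 r2 hr1.le hr2.le with h | h
        · exact ⟨r2, hr2, fun u hu => ⟨g1 ⟨lt_of_le_of_lt h hu.1, hu.2⟩, g2 hu⟩⟩
        · exact ⟨r1, hr1, fun u hu => ⟨g1 hu, g2 ⟨lt_of_le_of_lt h hu.1, hu.2⟩⟩⟩
  | sUnion 𝒮 h ih =>
    intro t ht
    obtain ⟨S, hS, htS⟩ := ht
    have e1 : IsOpen S := by rw [show τ = _ from hτ]; exact h S hS
    rcases ih S hS e1 t htS with g | ⟨r, hr, g⟩
    · left; exact g.trans (Set.subset_sUnion_of_mem hS)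
    · right; exact ⟨r, hr, g.trans (Set.subset_sUnion_of_mem hS)⟩

theorem isCompact_Iic (hT : IsHausdorffTree T) (hτ : IsTreeTopology T τ) (t : T) :
    IsCompact (Set.Iic t) := by
  induction t using hT.wf.induction with
  | _ t ih =>
    rw [isCompact_iff_ultrafilter_le_nhds']
    intro f hf
    by_contra hcon
    push Not at hcon
    have h1 : ¬ (f : Filter T) ≤ 𝓝 t := hcon t (le_refl t)
    rw [Filter.not_le] at h1
    obtain ⟨O, hO, hOf⟩ := h1
    obtain ⟨O', hO'O, hO', htO'⟩ := mem_nhds_iff.mp hO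
    have hO'f : O' ∉ (f : Filter T) := fun h => hOf (Filter.mem_of_superset h hO'O)
    rcases exists_Ioc_subset hT hτ hO' t htO' with g | ⟨r, hr, g⟩
    · exact hO'f (Filter.mem_of_superset hf g)
    · have h2 : Set.Ioc r t ∉ f := fun h => hO'f (Filter.mem_of_superset h g)
      have h3 : Set.Iic r ∈ f := by
        have h4 : (Set.Ioc r t)ᶜ ∈ f := Ultrafilter.compl_mem_iff_notMem.mpr h2
        have h5 : (Set.Ioc r t)ᶜ ∩ Set.Iic t ∈ (f : Filter T) := Filter.inter_mem h4 hf
        refine Filter.mem_of_superset h5 ?_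
        rintro u ⟨hu1, hu2⟩
        rcases hT.chain t u r hu2 hr.le with h | h
        · exact h
        · rcases eq_or_lt_of_le h with h | h
          · exact h.symm.le
          · exact absurd ⟨h, hu2⟩ hu1
      obtain ⟨x, hx, hfx⟩ := (ih r hr).ultrafilter_le_nhds' f h3
      exact hcon x (le_trans hx hr.le) hfx

theorem isClosed_Iic (hT : IsHausdorffTree T) (hτ : IsTreeTopology T τ) (t : T) :
    IsClosed (Set.Iic t) := by
  rw [← isOpen_compl_iff, isOpen_iff_forall_mem_open]
  intro s hs
  have hs' : ¬ s ≤ t := hs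
  -- the least element below `s` that is not below `t`
  obtain ⟨m, ⟨hms, hmt⟩, hmin⟩ := hT.wf.has_min {r | r ≤ s ∧ ¬ r ≤ t} ⟨s, le_refl s, hs'⟩
  have hlt : ∀ c, c < m → c ≤ t := by
    intro c hc
    by_contra h
    exact hmin c ⟨hc.le.trans hms, h⟩ hc
  have hgood : ∀ u, u ≤ s → m ≤ u → ¬ u ≤ t := fun u _ hmu hut => hmt (hmu.trans hut)
  by_cases h0 : ∃ c, c < m
  · by_cases h1 : ∃ c, c ⋖ m
    · obtain ⟨c, hc⟩ := h1
      refine ⟨Set.Ioc c s, ?_, isOpen_Ioc' hτ c s, ⟨lt_of_lt_of_le hc.lt hms, le_refl s⟩⟩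
      intro u hu
      have : m ≤ u := by
        rcases hT.chain s m u hms hu.2 with h | h
        · exact h
        · rcases eq_or_lt_of_le h with h | h
          · exact h.symm.le
          · exact absurd h (hc.2 hu.1)
      exact hgood u hu.2 this
    · exfalso
      push Not at h1
      -- `t` is not below all predecessors of `m`
      by_cases h2 : ∃ r, r ≤ t ∧ ¬ r < m
      · obtain ⟨m', ⟨hm't, hm'm⟩, hmin'⟩ := hT.wf.has_min {r | r ≤ t ∧ ¬ r < m} h2
        have heq : m = m' := by
          apply hT.haus m m' h0 h1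
          intro c
          constructor
          · intro hc
            rcases hT.chain t c m' (hlt c hc) hm't with h | h
            · rcases eq_or_lt_of_le h with h | h
              · exact absurd (h ▸ hc) hm'm
              · exact h
            · exact absurd (lt_of_le_of_lt h hc) hm'm
          · intro hc
            by_contra h
            exact hmin' c ⟨hc.le.trans hm't, h⟩ hc
        exact hmt (heq ▸ hm't)
      · push Not at h2
        have htm : t < m := h2 t (le_refl t)
        apply h1 t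
        refine ⟨htm, ?_⟩
        intro c hc hcm
        exact absurd (hlt c hcm) (not_le_of_gt hc)
  · refine ⟨Set.Iic s, ?_, isOpen_Iic hτ s, le_refl s⟩
    intro u hu
    have : m ≤ u := by
      rcases hT.chain s m u hms hu with h | h
      · exact h
      · rcases eq_or_lt_of_le h with h | h
        · exact h.symm.le
        · exact absurd ⟨u, h⟩ h0
    exact hgood u hu this

/-- The indicator function of `(0, t]`, as an element of `C₀(T)`. -/
noncomputable def path (hT : IsHausdorffTree T) (hτ : IsTreeTopology T τ) (t : T) : C₀(T, ℝ) where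
  toFun := Set.indicator (Set.Iic t) (fun _ => (1 : ℝ))
  continuous_toFun := by
    apply Continuous.indicator _ continuous_const
    intro a ha
    have hclopen : IsClopen (Set.Iic t) := ⟨isClosed_Iic hT hτ t, isOpen_Iic hτ t⟩
    rw [hclopen.frontier_eq] at ha
    exact absurd ha (Set.notMem_empty a)
  zero_at_infty' := by
    have : ∀ᶠ u in Filter.cocompact T, Set.indicator (Set.Iic t) (fun _ => (1 : ℝ)) u = 0 := by
      filter_upwards [(isCompact_Iic hT hτ t).compl_mem_cocompact] with u hu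
      exact Set.indicator_of_notMem hu _
    exact tendsto_const_nhds.congr' (this.mono fun u hu => hu.symm)

theorem path_apply (hT : IsHausdorffTree T) (hτ : IsTreeTopology T τ) (t u : T) :
    path hT hτ t u = Set.indicator (Set.Iic t) (fun _ => (1 : ℝ)) u := rfl

theorem path_apply_of_le (hT : IsHausdorffTree T) (hτ : IsTreeTopology T τ) {t u : T}
    (h : u ≤ t) : path hT hτ t u = 1 := by
  rw [path_apply]
  exact Set.indicator_of_mem (show u ∈ Set.Iic t from h) _

theorem path_apply_of_not_le (hT : IsHausdorffTree T) (hτ : IsTreeTopology T τ) {t u : T}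
    (h : ¬ u ≤ t) : path hT hτ t u = 0 := by
  rw [path_apply]
  exact Set.indicator_of_notMem (show u ∉ Set.Iic t from h) _

theorem abs_path_sub_le (hT : IsHausdorffTree T) (hτ : IsTreeTopology T τ) (s t u : T) :
    |(path hT hτ s - path hT hτ t) u| ≤ 1 := by
  have h1 : (path hT hτ s - path hT hτ t) u = path hT hτ s u - path hT hτ t u := rfl
  rw [h1]
  by_cases hs : u ≤ s <;> by_cases ht : u ≤ t
  · rw [path_apply_of_le hT hτ hs, path_apply_of_le hT hτ ht]; norm_num
  · rw [path_apply_of_le hT hτ hs, path_apply_of_not_le hT hτ ht]; norm_num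
  · rw [path_apply_of_not_le hT hτ hs, path_apply_of_le hT hτ ht]; norm_num
  · rw [path_apply_of_not_le hT hτ hs, path_apply_of_not_le hT hτ ht]; norm_num

omit [PartialOrder T] in
/-- A functional is summable over a disjointly supported family of functions bounded by one. -/
theorem sum_abs_le_of_disjoint {ι : Type*} (S : Finset ι) (g : ι → C₀(T, ℝ))
    (hd : ∀ i ∈ S, ∀ j ∈ S, i ≠ j → ∀ u, g i u = 0 ∨ g j u = 0)
    (hb : ∀ i ∈ S, ∀ u, |g i u| ≤ 1)
    (φ : StrongDual ℝ C₀(T, ℝ)) : ∑ i ∈ S, |φ (g i)| ≤ ‖φ‖ := by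
  classical
  let G : C₀(T, ℝ) := ∑ i ∈ S, (SignType.sign (φ (g i)) : ℝ) • g i
  have hGapp : ∀ u, G u = ∑ i ∈ S, (SignType.sign (φ (g i)) : ℝ) * g i u := by
    intro u
    have h1 : ∀ S' : Finset ι, (∑ i ∈ S', (SignType.sign (φ (g i)) : ℝ) • g i : C₀(T, ℝ)) u =
        ∑ i ∈ S', (SignType.sign (φ (g i)) : ℝ) * g i u := by
      intro S'
      induction S' using Finset.induction_on with
      | empty => simp
      | insert a S' ha ih =>
        rw [Finset.sum_insert ha, Finset.sum_insert ha, ← ih]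
        rfl
    exact h1 S
  have hG : ‖G‖ ≤ 1 := by
    have h2 : ‖G.toBCF‖ ≤ 1 := by
      rw [BoundedContinuousFunction.norm_le zero_le_one]
      intro u
      show ‖G u‖ ≤ 1
      rw [hGapp]
      by_cases h : ∃ i ∈ S, g i u ≠ 0
      · obtain ⟨i, hi, hiu⟩ := h
        have h3 : ∑ j ∈ S, (SignType.sign (φ (g j)) : ℝ) * g j u =
            (SignType.sign (φ (g i)) : ℝ) * g i u := by
          apply Finset.sum_eq_single_of_mem i hi
          intro j hj hji
          rcases hd j hj i hi hji u with h | h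
          · rw [h, mul_zero]
          · exact absurd h hiu
        rw [h3, norm_mul, Real.norm_eq_abs, Real.norm_eq_abs]
        have h4 : |(SignType.sign (φ (g i)) : ℝ)| ≤ 1 := by
          rcases lt_trichotomy (φ (g i)) 0 with h | h | h
          · rw [sign_neg h]; simp
          · rw [h]; simp
          · rw [sign_pos h]; simp
        have h5 := hb i hi u
        calc |(SignType.sign (φ (g i)) : ℝ)| * |g i u| ≤ 1 * 1 :=
              mul_le_mul h4 h5 (abs_nonneg _) zero_le_one
          _ = 1 := by norm_num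
      · push Not at h
        rw [Finset.sum_eq_zero]
        · simp
        · intro i hi
          rw [h i hi, mul_zero]
    exact h2
  have h6 : φ G = ∑ i ∈ S, |φ (g i)| := by
    rw [map_sum]
    apply Finset.sum_congr rfl
    intro i _
    rw [map_smul, smul_eq_mul]
    exact sign_mul_self (φ (g i))
  rw [← h6]
  calc φ G ≤ |φ G| := le_abs_self _
    _ ≤ ‖φ‖ * ‖G‖ := φ.le_opNorm G
    _ ≤ ‖φ‖ * 1 := by gcongr
    _ = ‖φ‖ := mul_one _

end

end Pool.Agent.H14WH
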