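import Pool.Agent.H14WH.Weak
import Pool.Agent.H14WH.Pettis
import Pool.Agent.H14WH.Tree
import Pool.Agent.H14WH.Coin

set_option autoImplicit false
open Filter Topology MeasureTheory Set
open scoped ZeroAtInfty

namespace Pool.Agent.H14WH

variable {T : Type*} [PartialOrder T] [τ : TopologicalSpace T]

theorem path_sub_disjoint (hT : IsHausdorffTree T) (hτ : IsTreeTopology T τ) {s s' t l t' l' : T}
    (h1 : ¬ s ≤ s') (h2 : ¬ s' ≤ s) (ht : s ≤ t) (hl : s ≤ l) (ht' : s' ≤ t') (hl' : s' ≤ l')
    (u : T) : (path hT hτ t - path hT hτ l) u = 0 ∨ (path hT hτ t' - path hT hτ l') u = 0 := by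
  have key : ∀ a b c : T, c ≤ a → c ≤ b → (path hT hτ a - path hT hτ b) u ≠ 0 → c ≤ u := by
    intro a b c hca hcb hne
    have e : (path hT hτ a - path hT hτ b) u = path hT hτ a u - path hT hτ b u := rfl
    rw [e] at hne
    by_cases hua : u ≤ a
    · rcases hT.chain a u c hua hca with h | h
      · exfalso
        rw [path_apply_of_le hT hτ hua, path_apply_of_le hT hτ (h.trans hcb)] at hne
        exact hne (sub_self _)
      · exact h
    · by_cases hub : u ≤ b
      · rcases hT.chain b u c hub hcb with h | h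
        · exact absurd (h.trans hca) hua
        · exact h
      · exfalso
        rw [path_apply_of_not_le hT hτ hua, path_apply_of_not_le hT hτ hub] at hne
        exact hne (sub_self _)
  by_contra hcon
  push Not at hcon
  have h3 := key t l s ht hl hcon.1
  have h4 := key t' l' s' ht' hl' hcon.2
  rcases hT.chain u s s' h3 h4 with h | h
  · exact h1 h
  · exact h2 h

section scheme

variable {E : Set T} (child : E → Bool → E) (r : E)

omit τ in
theorem node_mono (hle : ∀ (e : E) (b : Bool), (e : T) ≤ ((child e b : E) : T)) (b : ℕ → Bool) {k l : ℕ} (h : k ≤ l) :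
    ((node child r b k : E) : T) ≤ ((node child r b l : E) : T) := by
  induction l, h using Nat.le_induction with
  | base => exact le_refl _
  | succ l _ ih => exact ih.trans (hle _ _)

omit τ in
theorem node_incomp (hT : IsHausdorffTree T) (hle : ∀ (e : E) (b : Bool), (e : T) ≤ ((child e b : E) : T))
    (hinc : ∀ e : E, ¬ ((child e true : E) : T) ≤ ((child e false : E) : T) ∧
      ¬ ((child e false : E) : T) ≤ ((child e true : E) : T))
    {b c : ℕ → Bool} (hbc : b ≠ c) :
    ∀ᶠ k in atTop, ¬ ((node child r b k : E) : T) ≤ ((node child r c k : E) : T) ∧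
      ¬ ((node child r c k : E) : T) ≤ ((node child r b k : E) : T) := by
  classical
  have hex : ∃ i, b i ≠ c i := by
    by_contra hcon
    push Not at hcon
    exact hbc (funext hcon)
  set i := Nat.find hex with hi
  have hine : b i ≠ c i := Nat.find_spec hex
  have heq : node child r b i = node child r c i :=
    node_congr child r fun j hj => not_not.mp (Nat.find_min hex hj)
  have hbase : ¬ ((node child r b (i + 1) : E) : T) ≤ ((node child r c (i + 1) : E) : T) ∧
      ¬ ((node child r c (i + 1) : E) : T) ≤ ((node child r b (i + 1) : E) : T) := by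
    have e1 : node child r b (i + 1) = child (node child r c i) (b i) := by
      show child (node child r b i) (b i) = _
      rw [heq]
    have e2 : node child r c (i + 1) = child (node child r c i) (c i) := rfl
    rw [e1, e2]
    cases hb : b i <;> cases hc : c i
    · exact absurd (hb.trans hc.symm) hine
    · exact ⟨(hinc _).2, (hinc _).1⟩
    · exact hinc _
    · exact absurd (hb.trans hc.symm) hine
  filter_upwards [eventually_ge_atTop (i + 1)] with k hk
  exact hT.incomp_of_le (node_mono child r hle b hk) (node_mono child r hle c hk) hbase.1 hbase.2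

variable (lam : (ℕ → Bool) → T)

theorem exc_finite (hT : IsHausdorffTree T) (hτ : IsTreeTopology T τ)
    (hle : ∀ (e : E) (b : Bool), (e : T) ≤ ((child e b : E) : T))
    (hinc : ∀ e : E, ¬ ((child e true : E) : T) ≤ ((child e false : E) : T) ∧
      ¬ ((child e false : E) : T) ≤ ((child e true : E) : T))
    (hlam : ∀ b k, ((node child r b k : E) : T) ≤ lam b)
    (φ : StrongDual ℝ C₀(T, ℝ)) {ε : ℝ} (hε : 0 < ε) :
    {b : ℕ → Bool | ∀ k, ∃ t, ((node child r b k : E) : T) ≤ t ∧
      ε ≤ |φ (path hT hτ t - path hT hτ (lam b))|}.Finite := by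
  classical
  have : Nonempty T := ⟨(r : T)⟩
  by_contra hinf
  obtain ⟨M, hM⟩ := exists_nat_gt (‖φ‖ / ε)
  obtain ⟨S, hS, hcard⟩ := Set.Infinite.exists_subset_card_eq hinf M
  have hev : ∀ᶠ k in atTop, ∀ b ∈ S, ∀ c ∈ S, b ≠ c →
      ¬ ((node child r b k : E) : T) ≤ ((node child r c k : E) : T) ∧ ¬ ((node child r c k : E) : T) ≤ ((node child r b k : E) : T) := by
    rw [Filter.eventually_all_finset]
    intro b _
    rw [Filter.eventually_all_finset]
    intro c _
    by_cases hbc : b = c
    · exact Eventually.of_forall fun k h => absurd hbc h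
    · filter_upwards [node_incomp child r hT hle hinc hbc] with k hk _
      exact hk
  obtain ⟨k, hk⟩ := hev.exists
  have hch : ∀ b ∈ S, ∃ t, ((node child r b k : E) : T) ≤ t ∧
      ε ≤ |φ (path hT hτ t - path hT hτ (lam b))| := fun b hb => hS hb k
  choose! t ht1 ht2 using hch
  have hsum := sum_abs_le_of_disjoint S (fun b => path hT hτ (t b) - path hT hτ (lam b))
    (by
      intro b hb c hc hbc u
      obtain ⟨h1, h2⟩ := hk b hb c hc hbc
      exact path_sub_disjoint hT hτ h1 h2 (ht1 b hb) (hlam b k) (ht1 c hc) (hlam c k) u)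
    (by
      intro b _ u
      exact abs_path_sub_le hT hτ _ _ u) φ
  have h3 : (M : ℝ) * ε ≤ ∑ b ∈ S, |φ (path hT hτ (t b) - path hT hτ (lam b))| := by
    rw [← hcard, ← nsmul_eq_mul]
    exact Finset.card_nsmul_le_sum S _ ε fun b hb => ht2 b hb
  rw [div_lt_iff₀ hε] at hM
  linarith

variable {X : Type*} [NormedAddCommGroup X] [NormedSpace ℝ X]
variable {Y : Type*} [NormedAddCommGroup Y] [NormedSpace ℝ Y]

/-- The point of `X` that corresponds to the indicator function of `(0, t]`, where `X` and `Y` are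
weakly homeomorphic and `J` maps `C₀(T)` to `Y`. -/
noncomputable def pt (hT : IsHausdorffTree T) (hτ : IsTreeTopology T τ) (J : C₀(T, ℝ) →L[ℝ] Y)
    (h : WeakSpace ℝ X ≃ₜ WeakSpace ℝ Y) (t : T) : X :=
  (toWeakSpace ℝ X).symm (h.symm (toWeakSpace ℝ Y (J (path hT hτ t))))

omit [PartialOrder T] in
/-- Evaluations of `C₀(T)` extend to a space that contains it isomorphically. -/
theorem exists_eval_extension (J : C₀(T, ℝ) →L[ℝ] Y) (c : ℝ) (hc : 0 < c)
    (hJ : ∀ g, c * ‖g‖ ≤ ‖J g‖) (a : T) : ∃ ψ : StrongDual ℝ Y, ∀ g, ψ (J g) = g a := by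
  have hinj : Function.Injective J.toLinearMap := by
    rw [injective_iff_map_eq_zero]
    intro g hg
    have h1 := hJ g
    have h2 : J g = 0 := hg
    rw [h2, norm_zero] at h1
    have h3 : ‖g‖ ≤ 0 := by
      by_contra hcon
      push Not at hcon
      have := mul_pos hc hcon
      linarith
    exact norm_le_zero_iff.mp h3
  let e := LinearEquiv.ofInjective J.toLinearMap hinj
  let f0 : LinearMap.range J.toLinearMap →ₗ[ℝ] ℝ :=
    { toFun := fun y => (e.symm y) a
      map_add' := fun y y' => by rw [map_add]; rfl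
      map_smul' := fun r y => by rw [map_smul]; rfl }
  have hbound : ∀ y, ‖f0 y‖ ≤ c⁻¹ * ‖y‖ := by
    intro y
    have h1 : ‖(e.symm y) a‖ ≤ ‖e.symm y‖ := (e.symm y).toBCF.norm_coe_le_norm a
    have h2 := hJ (e.symm y)
    have h3 : J (e.symm y) = (y : Y) := by
      have h4 : e (e.symm y) = y := e.apply_symm_apply y
      have h5 := congrArg Subtype.val h4
      exact h5
    rw [h3] at h2
    have h6 : ‖e.symm y‖ ≤ c⁻¹ * ‖(y : Y)‖ := by
      rw [← div_eq_inv_mul, le_div_iff₀ hc]
      linarith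
    exact h1.trans h6
  obtain ⟨ψ, hψ, _⟩ := exists_extension_norm_eq (LinearMap.range J.toLinearMap)
    (f0.mkContinuous c⁻¹ hbound)
  refine ⟨ψ, fun g => ?_⟩
  have h1 := hψ ⟨J g, g, rfl⟩
  have h2 : e.symm ⟨J g, g, rfl⟩ = g := by
    rw [LinearEquiv.symm_apply_eq]
    rfl
  have h3 : (f0.mkContinuous c⁻¹ hbound) ⟨J g, g, rfl⟩ = (e.symm ⟨J g, g, rfl⟩) a := rfl
  rw [h3, h2] at h1
  exact h1

theorem exists_countable_exc (hT : IsHausdorffTree T) (hτ : IsTreeTopology T τ)
    (hle : ∀ (e : E) (b : Bool), (e : T) ≤ ((child e b : E) : T))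
    (hinc : ∀ e : E, ¬ ((child e true : E) : T) ≤ ((child e false : E) : T) ∧
      ¬ ((child e false : E) : T) ≤ ((child e true : E) : T))
    (hlam : ∀ b k, ((node child r b k : E) : T) ≤ lam b)
    (J : C₀(T, ℝ) →L[ℝ] Y) (h : WeakSpace ℝ X ≃ₜ WeakSpace ℝ Y) (f : StrongDual ℝ X) :
    ∃ C : Set (ℕ → Bool), C.Countable ∧ ∀ b, b ∉ C → ∀ ε : ℝ, 0 < ε → ∃ k, ∀ t,
      ((node child r b k : E) : T) ≤ t → |f (pt hT hτ J h t) - f (pt hT hτ J h (lam b))| < ε := by
  classical
  let F : WeakSpace ℝ Y → ℝ := fun y => (topDualPairing ℝ X).flip (h.symm y) f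
  have hF : Continuous F :=
    (WeakBilin.eval_continuous (topDualPairing ℝ X).flip f).comp h.symm.continuous
  have hFpt : ∀ t, F (toWeakSpace ℝ _ (J (path hT hτ t))) = f (pt hT hτ J h t) := fun t => rfl
  obtain ⟨D, hD, hctl⟩ := exists_countable_control_weak F hF
  refine ⟨⋃ φ ∈ D, ⋃ n : ℕ, {b : ℕ → Bool | ∀ k, ∃ t, ((node child r b k : E) : T) ≤ t ∧
      (1 / ((n : ℝ) + 1)) ≤ |(φ.comp J) (path hT hτ t - path hT hτ (lam b))|}, ?_, ?_⟩
  · apply hD.biUnion
    intro φ _
    apply Set.countable_iUnion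
    intro n
    exact (exc_finite child r lam hT hτ hle hinc hlam (φ.comp J) (by positivity)).countable
  intro b hb ε hε
  obtain ⟨A, hAD, η, hη, hz⟩ := hctl (J (path hT hτ (lam b))) ε hε
  obtain ⟨n, hn⟩ := exists_nat_one_div_lt hη
  have hk : ∀ φ ∈ A, ∃ k, ∀ t, ((node child r b k : E) : T) ≤ t →
      |(φ.comp J) (path hT hτ t - path hT hτ (lam b))| < 1 / ((n : ℝ) + 1) := by
    intro φ hφ
    by_contra hcon
    push Not at hcon
    apply hb
    exact Set.mem_biUnion (hAD hφ) (Set.mem_iUnion.mpr ⟨n, hcon⟩)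
  choose! K hK using hk
  refine ⟨A.sup K, fun t ht => ?_⟩
  rw [← hFpt, ← hFpt]
  apply hz
  intro φ hφ
  have h1 := hK φ hφ t ((node_mono child r hle b (Finset.le_sup hφ)).trans ht)
  rw [map_sub] at h1
  exact h1.trans hn

/-- Core contradiction. -/
theorem no_constant_scheme [CompleteSpace X] (hT : IsHausdorffTree T) (hτ : IsTreeTopology T τ)
    (hle : ∀ (e : E) (b : Bool), (e : T) ≤ ((child e b : E) : T))
    (hinc : ∀ e : E, ¬ ((child e true : E) : T) ≤ ((child e false : E) : T) ∧
      ¬ ((child e false : E) : T) ≤ ((child e true : E) : T))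
    (hlam : ∀ b k, ((node child r b k : E) : T) ≤ lam b)
    (J : C₀(T, ℝ) →L[ℝ] Y) (c : ℝ) (hc : 0 < c) (hJ : ∀ g, c * ‖g‖ ≤ ‖J g‖)
    (h : WeakSpace ℝ X ≃ₜ WeakSpace ℝ Y)
    (N : X → ℝ) (hadd : ∀ x y, N (x + y) ≤ N x + N y) (hsmul : ∀ (c : ℝ) x, N (c • x) = |c| * N x)
    (hNc : Continuous N) (hstrict : ∀ x y, N x = N y → N (x + y) = 2 * N x → x = y)
    (n : ℝ) (m : ℝ)
    (hlow : ∀ x ∈ convexHull ℝ {x | ∃ t, (r : T) ≤ t ∧ pt hT hτ J h t = x ∧ ‖x‖ ≤ n}, m ≤ N x)
    (happ : ∀ e : E, ∀ δ : ℝ, 0 < δ →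
      ∃ x ∈ convexHull ℝ {x | ∃ t, (e : T) ≤ t ∧ pt hT hτ J h t = x ∧ ‖x‖ ≤ n}, N x < m + δ) :
    False := by
  classical
  let K : T → Set X := fun s => convexHull ℝ {x | ∃ t, s ≤ t ∧ pt hT hτ J h t = x ∧ ‖x‖ ≤ n}
  have hKmono : ∀ s s', s ≤ s' → K s' ⊆ K s := by
    intro s s' hss
    apply convexHull_mono
    rintro x ⟨t, ht, hx⟩
    exact ⟨t, hss.trans ht, hx⟩
  choose z hz1 hz2 using fun (k : ℕ) (e : E) => happ e (1 / ((k : ℝ) + 1)) (by positivity)
  have hzK : ∀ (k : ℕ) (e : E), z k e ∈ K (e : T) := hz1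
  have hKnorm : ∀ s, ∀ x ∈ K s, ‖x‖ ≤ n := by
    intro s x hx
    have h1 : K s ⊆ Metric.closedBall (0 : X) n := by
      apply convexHull_min _ (convex_closedBall _ _)
      rintro x ⟨t, _, _, hx⟩
      rwa [mem_closedBall_zero_iff]
    exact mem_closedBall_zero_iff.mp (h1 hx)
  let x : ℕ → (ℕ → Bool) → X := fun k b => z k (node child r b k)
  let w : (ℕ → Bool) → X := fun b => pt hT hτ J h (lam b)
  have hrK : ∀ k b, x k b ∈ K (r : T) := fun k b =>
    hKmono _ _ (node_mono child r hle b (Nat.zero_le k)) (hzK k _)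
  -- countable range
  obtain ⟨v, hv⟩ : ∃ v : ℕ → X, ∀ k b, x k b ∈ Set.range v := by
    have hc : (⋃ k, Set.range (x k)).Countable := by
      apply Set.countable_iUnion
      intro k
      have : Set.range (x k) ⊆ (z k) '' (Set.range fun b : ℕ → Bool => node child r b k) := by
        rintro _ ⟨b, rfl⟩
        exact ⟨_, ⟨b, rfl⟩, rfl⟩
      exact (((finite_range_node child r k).image (z k)).subset this).countable
    obtain ⟨v, hv⟩ := hc.exists_eq_range ⟨x 0 (fun _ => true), Set.mem_iUnion.mpr ⟨0, _, rfl⟩⟩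
    refine ⟨v, fun k b => ?_⟩
    rw [← hv]
    exact Set.mem_iUnion.mpr ⟨k, b, rfl⟩
  have hmeas : ∀ (f : StrongDual ℝ X) (k : ℕ), Measurable fun b => f (x k b) := by
    intro f k
    exact measurable_node child r k (fun e => f (z k e))
  have hbdd : ∀ k b, ‖x k b‖ ≤ n := fun k b => hKnorm _ _ (hzK k _)
  have hconv : ∀ f : StrongDual ℝ X, ∀ᵐ b ∂coins,
      Tendsto (fun k => f (x k b)) atTop (𝓝 (f (w b))) := by
    intro f
    obtain ⟨C, hC, hCt⟩ := exists_countable_exc child r lam hT hτ hle hinc hlam J h f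
    have hnull : coins C = 0 := hC.measure_zero coins
    have hae : ∀ᵐ b ∂coins, b ∉ C := by
      rw [ae_iff]
      simpa using hnull
    filter_upwards [hae] with b hb
    rw [Metric.tendsto_atTop]
    intro ε hε
    obtain ⟨k0, hk0⟩ := hCt b hb (ε / 2) (by linarith)
    refine ⟨k0, fun k hk => ?_⟩
    -- the half-open slab is convex
    have hsub : K ((node child r b k : E) : T) ⊆ {x' : X | |f x' - f (w b)| ≤ ε / 2} := by
      apply convexHull_min
      · rintro x' ⟨t, ht, rfl, _⟩
        exact (hk0 t ((node_mono child r hle b hk).trans ht)).le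
      · have : {x' : X | |f x' - f (w b)| ≤ ε / 2} = f ⁻¹' (Metric.closedBall (f (w b)) (ε / 2)) := by
          ext x'
          simp [Real.dist_eq]
        rw [this]
        exact (convex_closedBall _ _).linear_preimage f.toLinearMap
    have h1 : |f (x k b) - f (w b)| ≤ ε / 2 := hsub (hzK k _)
    rw [Real.dist_eq]
    linarith
  -- minimal points
  have hlow' : ∀ y ∈ closure (K r), m ≤ N y := by
    intro y hy
    have hcl : closure (K r) ⊆ {y | m ≤ N y} :=
      closure_minimal (fun y hy => hlow y hy) (isClosed_le continuous_const hNc)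
    exact hcl hy
  have hconvcl : Convex ℝ (closure (K (r : T))) := (convex_convexHull ℝ _).closure
  have huniq : ∀ y y', y ∈ closure (K (r : T)) → y' ∈ closure (K (r : T)) → N y ≤ m → N y' ≤ m →
      y = y' := by
    intro y y' hy hy' hNy hNy'
    have e1 : N y = m := le_antisymm hNy (hlow' y hy)
    have e2 : N y' = m := le_antisymm hNy' (hlow' y' hy')
    apply hstrict y y' (e1.trans e2.symm)
    have hmid : (1 / 2 : ℝ) • y + (1 / 2 : ℝ) • y' ∈ closure (K (r : T)) :=
      hconvcl hy hy' (by norm_num) (by norm_num) (by norm_num)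
    have h1 := hlow' _ hmid
    rw [← smul_add, hsmul, abs_of_pos (by norm_num : (0 : ℝ) < 1 / 2)] at h1
    have h2 := hadd y y'
    apply le_antisymm
    · linarith
    · linarith
  have hDconv : ∀ k : ℕ, Convex ℝ (closure (K (r : T)) ∩ {y | N y ≤ m + 1 / ((k : ℝ) + 1)}) := by
    intro k
    apply hconvcl.inter
    intro y hy y' hy' a b ha hb hab
    show N (a • y + b • y') ≤ m + 1 / ((k : ℝ) + 1)
    calc N (a • y + b • y') ≤ N (a • y) + N (b • y') := hadd _ _
      _ = a * N y + b * N y' := by rw [hsmul, hsmul, abs_of_nonneg ha, abs_of_nonneg hb]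
      _ ≤ a * (m + 1 / ((k : ℝ) + 1)) + b * (m + 1 / ((k : ℝ) + 1)) := by
        have h1 : N y ≤ m + 1 / ((k : ℝ) + 1) := hy
        have h2 : N y' ≤ m + 1 / ((k : ℝ) + 1) := hy'
        gcongr
      _ = m + 1 / ((k : ℝ) + 1) := by rw [← add_mul, hab, one_mul]
  have hDclosed : ∀ k : ℕ, IsClosed (closure (K (r : T)) ∩ {y | N y ≤ m + 1 / ((k : ℝ) + 1)}) :=
    fun k => isClosed_closure.inter (isClosed_le hNc continuous_const)
  have hxD : ∀ (k j : ℕ) (b : ℕ → Bool), k ≤ j → x j b ∈ closure (K (r : T)) ∩ {y | N y ≤ m + 1 / ((k : ℝ) + 1)} := by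
    intro k j b hkj
    refine ⟨subset_closure (hrK j b), ?_⟩
    have h1 : N (x j b) < m + 1 / ((j : ℝ) + 1) := hz2 j _
    have h2 : 1 / ((j : ℝ) + 1) ≤ 1 / ((k : ℝ) + 1) := by
      apply one_div_le_one_div_of_le (by positivity)
      have : (k : ℝ) ≤ j := by exact_mod_cast hkj
      linarith
    show N (x j b) ≤ _
    linarith
  -- averages over measurable sets
  have hmain : ∃ y0 : X, ∀ A : Set (ℕ → Bool), MeasurableSet A → ∀ f : StrongDual ℝ X,
      ∫ b in A, f (w b) ∂coins = coins.real A * f y0 := by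
    have hL : ∀ A : Set (ℕ → Bool), ∃ L : X, ∀ f : StrongDual ℝ X,
        f L = ∫ b in A, f (w b) ∂coins := by
      intro A
      exact pettis_dominated (coins.restrict A) x v hv hmeas n hbdd w
        (fun f => ae_restrict_of_ae (hconv f))
    choose L hL using hL
    have hmem : ∀ A : Set (ℕ → Bool), MeasurableSet A → coins A ≠ 0 →
        ((coins.real A)⁻¹ • L A) ∈ closure (K (r : T)) ∧ N ((coins.real A)⁻¹ • L A) ≤ m := by
      intro A hA hpos
      have hposr : 0 < coins.real A := by
        rw [measureReal_def]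
        exact ENNReal.toReal_pos hpos (measure_ne_top _ _)
      have hD : ∀ k : ℕ, ((coins.real A)⁻¹ • L A) ∈
          closure (K (r : T)) ∩ {y | N y ≤ m + 1 / ((k : ℝ) + 1)} := by
        intro k
        by_contra hnot
        obtain ⟨f, u, hf1, hf2⟩ := geometric_hahn_banach_closed_point (hDconv k) (hDclosed k) hnot
        have hle1 : ∀ᵐ b ∂(coins.restrict A), f (w b) ≤ u := by
          filter_upwards [ae_restrict_of_ae (s := A) (hconv f)] with b hb
          apply le_of_tendsto hb
          filter_upwards [eventually_ge_atTop k] with j hj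
          exact (hf1 _ (hxD k j b hj)).le
        have hbound : ∀ᵐ b ∂(coins.restrict A), ‖f (w b)‖ ≤ ‖f‖ * n := by
          filter_upwards [ae_restrict_of_ae (s := A) (hconv f)] with b hb
          apply le_of_tendsto hb.norm
          exact Eventually.of_forall fun k => (f.le_opNorm _).trans (by gcongr; exact hbdd k b)
        have hint : Integrable (fun b => f (w b)) (coins.restrict A) := by
          apply Integrable.of_bound _ (‖f‖ * n) hbound
          exact aestronglyMeasurable_of_tendsto_ae atTop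
            (fun k => (hmeas f k).aestronglyMeasurable) (ae_restrict_of_ae (hconv f))
        have h2 : ∫ b in A, f (w b) ∂coins ≤ ∫ _ in A, u ∂coins :=
          integral_mono_ae hint (integrable_const _) hle1
        rw [setIntegral_const, smul_eq_mul] at h2
        rw [map_smul, smul_eq_mul, hL A f] at hf2
        rw [lt_inv_mul_iff₀ hposr] at hf2
        linarith
      refine ⟨(hD 0).1, ?_⟩
      apply le_of_forall_pos_le_add
      intro δ hδ
      obtain ⟨k, hk⟩ := exists_nat_one_div_lt hδ
      have h3 : N ((coins.real A)⁻¹ • L A) ≤ m + 1 / ((k : ℝ) + 1) := (hD k).2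
      linarith
    refine ⟨(coins.real Set.univ)⁻¹ • L Set.univ, ?_⟩
    intro A hA f
    by_cases h0 : coins A = 0
    · rw [Measure.restrict_eq_zero.mpr h0, integral_zero_measure, measureReal_def, h0]
      simp
    · have hposr : 0 < coins.real A := by
        rw [measureReal_def]
        exact ENNReal.toReal_pos h0 (measure_ne_top _ _)
      have e1 := hmem A hA h0
      have e2 := hmem Set.univ MeasurableSet.univ (by simp)
      have e3 := huniq _ _ e1.1 e2.1 e1.2 e2.2
      rw [← e3, map_smul, smul_eq_mul, hL A f, mul_inv_cancel_left₀ hposr.ne']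
  obtain ⟨y0, hy0⟩ := hmain
  have hae : ∀ f : StrongDual ℝ X, ∀ᵐ b ∂coins, f (w b) = f y0 := by
    intro f
    have hbound : ∀ᵐ b ∂coins, ‖f (w b)‖ ≤ ‖f‖ * n := by
      filter_upwards [hconv f] with b hb
      apply le_of_tendsto hb.norm
      exact Eventually.of_forall fun k => (f.le_opNorm _).trans (by gcongr; exact hbdd k b)
    have hint : Integrable (fun b => f (w b)) coins := by
      apply Integrable.of_bound _ (‖f‖ * n) hbound
      exact aestronglyMeasurable_of_tendsto_ae atTop
        (fun k => (hmeas f k).aestronglyMeasurable) (hconv f)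
    have h1 : (fun b => f (w b)) =ᵐ[coins] fun _ => f y0 := by
      apply Integrable.ae_eq_of_forall_setIntegral_eq _ _ hint (integrable_const _)
      intro A hA _
      rw [hy0 A hA f, setIntegral_const, smul_eq_mul]
    exact h1
  -- evaluate at a node
  let a : T := ((child r true : E) : T)
  obtain ⟨ev, hev⟩ := exists_eval_extension J c hc hJ a
  let G : WeakSpace ℝ X → ℝ := fun y => (topDualPairing ℝ Y).flip (h y) ev
  have hG : Continuous G :=
    (WeakBilin.eval_continuous (topDualPairing ℝ Y).flip ev).comp h.continuous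
  have hGpt : ∀ t, G (toWeakSpace ℝ X (pt hT hτ J h t)) = path hT hτ t a := by
    intro t
    have h1 : h (toWeakSpace ℝ X (pt hT hτ J h t)) = toWeakSpace ℝ Y (J (path hT hτ t)) := by
      show h ((toWeakSpace ℝ X) ((toWeakSpace ℝ X).symm (h.symm _))) = _
      rw [LinearEquiv.apply_symm_apply, Homeomorph.apply_symm_apply]
    show (topDualPairing ℝ Y).flip (h (toWeakSpace ℝ X (pt hT hτ J h t))) ev = _
    rw [h1, ← hev]
    rfl
  obtain ⟨C, hC, hctl⟩ := exists_countable_control_weak G hG
  have haeC : ∀ᵐ b ∂coins, ∀ f ∈ C, f (w b) = f y0 := (ae_ball_iff hC).mpr fun f _ => hae f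
  have haeG : ∀ᵐ b ∂coins, G (toWeakSpace ℝ X (w b)) = G (toWeakSpace ℝ X y0) := by
    filter_upwards [haeC] with b hb
    by_contra hne
    have hpos : 0 < |G (toWeakSpace ℝ X (w b)) - G (toWeakSpace ℝ X y0)| :=
      abs_pos.mpr (sub_ne_zero.mpr hne)
    obtain ⟨A, hAC, η, hη, hz⟩ := hctl y0 _ hpos
    have := hz (w b) (by
      intro f hf
      rw [hb f (hAC hf), sub_self, abs_zero]
      exact hη)
    exact lt_irrefl _ this
  have hval : ∀ b : ℕ → Bool, G (toWeakSpace ℝ X (w b)) = if b 0 = true then 1 else 0 := by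
    intro b
    rw [show w b = pt hT hτ J h (lam b) from rfl, hGpt]
    by_cases hb : b 0 = true
    · rw [if_pos hb]
      apply path_apply_of_le
      have h1 : ((node child r b 1 : E) : T) = a := by
        show ((child r (b 0) : E) : T) = _
        rw [hb]
      rw [← h1]
      exact hlam b 1
    · rw [if_neg hb]
      apply path_apply_of_not_le
      intro hle'
      have hb' : b 0 = false := by simpa using hb
      have h1 : ((node child r b 1 : E) : T) = ((child r false : E) : T) := by
        show ((child r (b 0) : E) : T) = _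
        rw [hb']
      have h2 := hlam b 1
      rw [h1] at h2
      rcases hT.chain _ _ _ hle' h2 with h3 | h3
      · exact (hinc r).1 h3
      · exact (hinc r).2 h3
  have hpick : ∀ c : Bool, ∃ b : ℕ → Bool, b 0 = c ∧
      G (toWeakSpace ℝ X (w b)) = G (toWeakSpace ℝ X y0) := by
    intro c
    by_contra hcon
    push Not at hcon
    have h1 : {b : ℕ → Bool | b 0 = c} ⊆
        {b | ¬ G (toWeakSpace ℝ X (w b)) = G (toWeakSpace ℝ X y0)} := fun b hb => hcon b hb
    have h2 := measure_mono_null h1 (ae_iff.mp haeG)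
    rw [coins_zero] at h2
    simp at h2
  obtain ⟨b1, hb1, hG1⟩ := hpick true
  obtain ⟨b2, hb2, hG2⟩ := hpick false
  rw [hval, if_pos hb1] at hG1
  rw [hval, if_neg (by simp [hb2])] at hG2
  rw [← hG1] at hG2
  exact zero_ne_one hG2

end scheme

end Pool.Agent.H14WH
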