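import Pool.Agent.H14WH.Scheme

set_option autoImplicit false
open Filter Topology MeasureTheory Set
open scoped ZeroAtInfty

namespace Pool.Agent.H14WH

section

variable {T : Type*} [PartialOrder T] [τ : TopologicalSpace T]
variable {X : Type*} [NormedAddCommGroup X] [NormedSpace ℝ X]
variable {Y : Type*} [NormedAddCommGroup Y] [NormedSpace ℝ Y]

/-- Convex hull of the points above `s` of norm at most `n`. -/
noncomputable def hullAbove (hT : IsHausdorffTree T) (hτ : IsTreeTopology T τ)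
    (J : C₀(T, ℝ) →L[ℝ] Y) (h : WeakSpace ℝ X ≃ₜ WeakSpace ℝ Y) (n : ℕ) (s : T) : Set X :=
  convexHull ℝ {x | ∃ t, s ≤ t ∧ pt hT hτ J h t = x ∧ ‖x‖ ≤ n}

theorem hullAbove_anti (hT : IsHausdorffTree T) (hτ : IsTreeTopology T τ)
    (J : C₀(T, ℝ) →L[ℝ] Y) (h : WeakSpace ℝ X ≃ₜ WeakSpace ℝ Y) (n : ℕ) {s s' : T} (hs : s ≤ s') :
    hullAbove hT hτ J h n s' ⊆ hullAbove hT hτ J h n s := by
  apply convexHull_mono
  rintro x ⟨t, ht, hx⟩
  exact ⟨t, hs.trans ht, hx⟩

open Classical in
/-- Normalised infimum of the norm over the hull. -/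
noncomputable def level (N : X → ℝ) (S : Set X) : ℝ :=
  if S.Nonempty then sInf (N '' S) / (1 + sInf (N '' S)) else 1

omit [NormedAddCommGroup X] [NormedSpace ℝ X] in
theorem level_nonneg {N : X → ℝ} (hN : ∀ x, 0 ≤ N x) (S : Set X) : 0 ≤ level N S := by
  unfold level
  split_ifs
  · have : 0 ≤ sInf (N '' S) := Real.sInf_nonneg (by rintro _ ⟨x, _, rfl⟩; exact hN x)
    positivity
  · exact zero_le_one

omit [NormedAddCommGroup X] [NormedSpace ℝ X] in
theorem level_le_one {N : X → ℝ} (hN : ∀ x, 0 ≤ N x) (S : Set X) : level N S ≤ 1 := by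
  unfold level
  split_ifs
  · have : 0 ≤ sInf (N '' S) := Real.sInf_nonneg (by rintro _ ⟨x, _, rfl⟩; exact hN x)
    rw [div_le_one (by linarith)]
    linarith
  · exact le_refl 1

omit [NormedAddCommGroup X] [NormedSpace ℝ X] in
theorem level_lt_one_iff {N : X → ℝ} (hN : ∀ x, 0 ≤ N x) (S : Set X) :
    level N S < 1 ↔ S.Nonempty := by
  unfold level
  split_ifs with hS
  · have : 0 ≤ sInf (N '' S) := Real.sInf_nonneg (by rintro _ ⟨x, _, rfl⟩; exact hN x)
    rw [div_lt_one (by linarith)]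
    simp [hS]
  · simp [hS]

omit [NormedAddCommGroup X] [NormedSpace ℝ X] in
theorem level_anti {N : X → ℝ} (hN : ∀ x, 0 ≤ N x) {S S' : Set X} (h : S' ⊆ S) :
    level N S ≤ level N S' := by
  by_cases hS' : S'.Nonempty
  · have hS : S.Nonempty := hS'.mono h
    unfold level
    rw [if_pos hS, if_pos hS']
    have h0 : 0 ≤ sInf (N '' S) := Real.sInf_nonneg (by rintro _ ⟨x, _, rfl⟩; exact hN x)
    have h1 : sInf (N '' S) ≤ sInf (N '' S') := by
      apply csInf_le_csInf
      · exact ⟨0, by rintro _ ⟨x, _, rfl⟩; exact hN x⟩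
      · exact hS'.image N
      · exact Set.image_mono h
    rw [div_le_div_iff₀ (by linarith) (by linarith)]
    nlinarith
  · have h2 : level N S' = 1 := by unfold level; rw [if_neg hS']
    rw [h2]
    exact level_le_one hN S

omit [NormedAddCommGroup X] [NormedSpace ℝ X] in
theorem sInf_eq_of_level_eq {N : X → ℝ} (hN : ∀ x, 0 ≤ N x) {S S' : Set X} (hS : S.Nonempty)
    (hS' : S'.Nonempty) (h : level N S = level N S') : sInf (N '' S) = sInf (N '' S') := by
  unfold level at h
  rw [if_pos hS, if_pos hS'] at h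
  have h0 : 0 ≤ sInf (N '' S) := Real.sInf_nonneg (by rintro _ ⟨x, _, rfl⟩; exact hN x)
  have h1 : 0 ≤ sInf (N '' S') := Real.sInf_nonneg (by rintro _ ⟨x, _, rfl⟩; exact hN x)
  rw [div_eq_div_iff (by linarith) (by linarith)] at h
  nlinarith

/-- If a space that contains `C₀(T)` isomorphically is weakly homeomorphic to a space with a
strictly convex norm, and the tree is limit closed, then there is an increasing real function that
is constant on no ever-branching subset. -/
theorem exists_increasing_of_strictlyConvex [CompleteSpace X] (hT : IsHausdorffTree T)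
    (hτ : IsTreeTopology T τ) (hcl : LimitClosed T)
    (J : C₀(T, ℝ) →L[ℝ] Y) (c : ℝ) (hc : 0 < c) (hJ : ∀ g, c * ‖g‖ ≤ ‖J g‖)
    (h : WeakSpace ℝ X ≃ₜ WeakSpace ℝ Y)
    (N : X → ℝ) (hadd : ∀ x y, N (x + y) ≤ N x + N y) (hsmul : ∀ (c : ℝ) x, N (c • x) = |c| * N x)
    (hNc : Continuous N) (hstrict : ∀ x y, N x = N y → N (x + y) = 2 * N x → x = y) :
    ∃ ρ : T → ℝ, Monotone ρ ∧ ∀ E : Set T, EverBranching E → ∃ s ∈ E, ∃ t ∈ E, ρ s ≠ ρ t := by
  classical
  have hN : ∀ x, 0 ≤ N x := by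
    intro x
    have h1 := hadd x (-x)
    have h2 : N (-x) = N x := by
      have := hsmul (-1) x
      simpa using this
    have h3 : N (0 : X) = 0 := by
      have := hsmul 0 (0 : X)
      simpa using this
    rw [add_neg_cancel, h3, h2] at h1
    linarith
  let q : ℕ → T → ℝ := fun n s => level N (hullAbove hT hτ J h n s)
  have hq0 : ∀ n s, 0 ≤ q n s := fun n s => level_nonneg hN _
  have hq1 : ∀ n s, q n s ≤ 1 := fun n s => level_le_one hN _
  have hqm : ∀ n, Monotone (q n) := fun n s s' hs => level_anti hN (hullAbove_anti hT hτ J h n hs)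
  have hsum : ∀ s, Summable fun n => (1 / 2 : ℝ) ^ n * q n s := by
    intro s
    apply Summable.of_nonneg_of_le (fun n => mul_nonneg (by positivity) (hq0 n s)) _
      (summable_geometric_two)
    intro n
    calc (1 / 2 : ℝ) ^ n * q n s ≤ (1 / 2 : ℝ) ^ n * 1 := by
          gcongr
          exact hq1 n s
      _ = (1 / 2 : ℝ) ^ n := mul_one _
  obtain ⟨ρ₀, hρ₀, hcl⟩ := hcl
  have hmono1 : Monotone fun s => ∑' n, (1 / 2 : ℝ) ^ n * q n s := by
    intro s s' hs
    apply Summable.tsum_le_tsum _ (hsum s) (hsum s')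
    intro n
    exact mul_le_mul_of_nonneg_left (hqm n hs) (by positivity)
  refine ⟨fun s => ρ₀ s + ∑' n, (1 / 2 : ℝ) ^ n * q n s, ?_, ?_⟩
  · intro s s' hs
    exact add_le_add (hρ₀ hs) (hmono1 hs)
  · intro E hE
    by_contra hcon
    push Not at hcon
    obtain ⟨⟨e0, he0⟩, hbr⟩ := hE
    have hconst : ∀ e ∈ E, e0 ≤ e → ∀ n, q n e0 = q n e := by
      intro e he h0e n
      by_contra hne
      have hlt : q n e0 < q n e := lt_of_le_of_ne (hqm n h0e) hne
      have : (∑' n, (1 / 2 : ℝ) ^ n * q n e0) < ∑' n, (1 / 2 : ℝ) ^ n * q n e := by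
        apply Summable.tsum_lt_tsum (i := n) _ _ (hsum e0) (hsum e)
        · intro k
          exact mul_le_mul_of_nonneg_left (hqm k h0e) (by positivity)
        · exact mul_lt_mul_of_pos_left hlt (by positivity)
      have h1 := hcon e0 he0 e he
      have h2 := hρ₀ h0e
      linarith
    have hconst0 : ∀ e ∈ E, e0 ≤ e → ρ₀ e = ρ₀ e0 := by
      intro e he h0e
      have h1 := hcon e0 he0 e he
      have h2 := hρ₀ h0e
      have h3 := hmono1 h0e
      simp only at h1 h3
      linarith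
    let E0 : Set T := {e | e ∈ E ∧ e0 ≤ e}
    have hex : ∀ e : E0, ∃ ab : E0 × E0, (e : T) ≤ ab.1 ∧ (e : T) ≤ ab.2 ∧
        ¬ (ab.1 : T) ≤ ab.2 ∧ ¬ (ab.2 : T) ≤ ab.1 := by
      intro e
      obtain ⟨a, ha, b, hb, h1, h2, h3, h4⟩ := hbr e e.2.1
      exact ⟨(⟨a, ha, e.2.2.trans h1⟩, ⟨b, hb, e.2.2.trans h2⟩), h1, h2, h3, h4⟩
    choose ch hch1 hch2 hch3 hch4 using hex
    let child : E0 → Bool → E0 := fun e b => if b = true then (ch e).1 else (ch e).2
    let r : E0 := ⟨e0, he0, le_refl _⟩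
    have hle : ∀ (e : E0) (b : Bool), (e : T) ≤ ((child e b : E0) : T) := by
      intro e b
      cases b
      · exact hch2 e
      · exact hch1 e
    have hinc : ∀ e : E0, ¬ ((child e true : E0) : T) ≤ ((child e false : E0) : T) ∧
      ¬ ((child e false : E0) : T) ≤ ((child e true : E0) : T) := by
      intro e
      exact ⟨hch3 e, hch4 e⟩
    have hlam : ∀ b : ℕ → Bool, ∃ u : T, ∀ k, ((node child r b k : E0) : T) ≤ u := by
      intro b
      refine hcl (fun k => ((node child r b k : E0) : T)) (fun k l hkl =>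
        node_mono child r hle b hkl) fun k => ?_
      rw [hconst0 _ (node child r b k).2.1 (node child r b k).2.2,
        hconst0 _ (node child r b 0).2.1 (node child r b 0).2.2]
    choose lam hlam using hlam
    obtain ⟨n, hn⟩ := exists_nat_ge ‖pt hT hτ J h e0‖
    have hne0 : (hullAbove hT hτ J h n e0).Nonempty :=
      ⟨pt hT hτ J h e0, subset_convexHull ℝ _ ⟨e0, le_refl _, rfl, hn⟩⟩
    have hne : ∀ e : E0, (hullAbove hT hτ J h n (e : T)).Nonempty := by
      intro e
      rw [← level_lt_one_iff hN]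
      have h1 := hconst e e.2.1 e.2.2 n
      have h2 : q n e0 < 1 := (level_lt_one_iff hN _).mpr hne0
      rw [h1] at h2
      exact h2
    refine no_constant_scheme child r lam hT hτ hle hinc hlam J c hc hJ h N hadd hsmul hNc hstrict n
      (sInf (N '' hullAbove hT hτ J h n e0)) ?_ ?_
    · intro x hx
      apply csInf_le
      · exact ⟨0, by rintro _ ⟨x, _, rfl⟩; exact hN x⟩
      · exact ⟨x, hx, rfl⟩
    · intro e δ hδ
      have h1 : sInf (N '' hullAbove hT hτ J h n e0) = sInf (N '' hullAbove hT hτ J h n (e : T)) :=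
        sInf_eq_of_level_eq hN hne0 (hne e) (hconst e e.2.1 e.2.2 n)
      rw [h1]
      obtain ⟨_, ⟨x, hx, rfl⟩, hlt⟩ := exists_lt_of_csInf_lt ((hne e).image N)
        (show sInf (N '' hullAbove hT hτ J h n (e : T)) <
          sInf (N '' hullAbove hT hτ J h n (e : T)) + δ by linarith)
      exact ⟨x, hx, hlt⟩

end

end Pool.Agent.H14WH
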