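import Pool.Agent.H14WH.Factor

set_option autoImplicit false
open Filter Topology MeasureTheory Set

namespace Pool.Agent.H14WH

/-- Linearly independent functionals take arbitrary prescribed values. -/
theorem exists_apply_eq_of_linearIndependent {V ι : Type*} [AddCommGroup V] [Module ℝ V] [Finite ι]
    (f : ι → (V →ₗ[ℝ] ℝ)) (hf : LinearIndependent ℝ f) (c : ι → ℝ) : ∃ v : V, ∀ i, f i v = c i := by
  classical
  cases nonempty_fintype ι
  have hsurj : Function.Surjective (LinearMap.pi f) := by
    by_contra hns
    rw [← LinearMap.range_eq_top, ← Ne, ← lt_top_iff_ne_top] at hns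
    obtain ⟨φ, φ0, hle⟩ := Submodule.exists_le_ker_of_lt_top _ hns
    apply φ0
    have h1 : ∀ x : V, φ (fun i => f i x) = 0 := fun x => hle ⟨x, rfl⟩
    have h2 : ∀ g : ι → ℝ, φ g = ∑ i, g i * φ (Pi.single i 1) := by
      intro g
      have : g = ∑ i, g i • (Pi.single i (1 : ℝ) : ι → ℝ) := by
        ext j
        simp [Finset.sum_apply, Pi.single_apply]
      conv_lhs => rw [this]
      simp [map_sum]
    have h3 : ∑ i, φ (Pi.single i 1) • f i = 0 := by
      ext x
      have := h1 x
      rw [h2] at this
      simp only [LinearMap.sum_apply, LinearMap.smul_apply, smul_eq_mul, LinearMap.zero_apply]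
      rw [← this]
      exact Finset.sum_congr rfl fun i _ => mul_comm _ _
    have h4 := Fintype.linearIndependent_iff.mp hf _ h3
    ext g
    simp [h4]
  obtain ⟨v, hv⟩ := hsurj c
  exact ⟨v, fun i => congrFun hv i⟩

/-- Weakly continuous real functions on a normed space factor continuously through countably many
functionals. -/
theorem exists_countable_control_weak {Y : Type*} [NormedAddCommGroup Y] [NormedSpace ℝ Y]
    (F : WeakSpace ℝ Y → ℝ) (hF : Continuous F) :
    ∃ C : Set (StrongDual ℝ Y), C.Countable ∧ ∀ (y : Y) (ε : ℝ), 0 < ε →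
      ∃ A : Finset (StrongDual ℝ Y), (A : Set (StrongDual ℝ Y)) ⊆ C ∧ ∃ η : ℝ, 0 < η ∧
        ∀ z : Y, (∀ f ∈ A, |f z - f y| < η) →
          |F (toWeakSpace ℝ Y z) - F (toWeakSpace ℝ Y y)| < ε := by
  classical
  let B := Module.Basis.ofVectorSpace ℝ (StrongDual ℝ Y)
  let Γ := Module.Basis.ofVectorSpaceIndex ℝ (StrongDual ℝ Y)
  let e : WeakSpace ℝ Y → (Γ → ℝ) := fun y γ => (γ : StrongDual ℝ Y) y
  have hcont : Continuous e := by
    apply continuous_pi
    intro γ
    exact WeakBilin.eval_continuous (topDualPairing ℝ Y).flip (γ : StrongDual ℝ Y)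
  have hind : IsInducing e := by
    constructor
    apply le_antisymm
    · exact continuous_iff_le_induced.mp hcont
    · have he' : @Continuous (WeakSpace ℝ Y) (Γ → ℝ) (TopologicalSpace.induced e inferInstance)
          inferInstance e := continuous_induced_dom
      have hfull : @Continuous (WeakSpace ℝ Y) (StrongDual ℝ Y → ℝ)
          (TopologicalSpace.induced e inferInstance) inferInstance
          (fun y f => (topDualPairing ℝ Y).flip y f) := by
        refine (@continuous_pi_iff _ _ _ (TopologicalSpace.induced e inferInstance) _ _).mpr ?_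
        intro f
        have hrep' : ∀ y : Y, f y =
            ∑ γ ∈ (B.repr f).support, (B.repr f) γ * (γ : StrongDual ℝ Y) y := by
          intro y
          have h1 : f = ∑ γ ∈ (B.repr f).support, (B.repr f) γ • (B γ) := by
            conv_lhs => rw [← B.linearCombination_repr f]
            rfl
          conv_lhs => rw [h1]
          rw [sum_apply]
          apply Finset.sum_congr rfl
          intro γ _
          rw [smul_apply, smul_eq_mul]
          congr 1
          have : B γ = (γ : StrongDual ℝ Y) := Module.Basis.ofVectorSpace_apply_self ℝ _ γ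
          rw [this]
        have hrep : ∀ y : WeakSpace ℝ Y, (topDualPairing ℝ Y).flip y f =
            ∑ γ ∈ (B.repr f).support, (B.repr f) γ * e y γ := fun y => hrep' y
        have h5 : (fun a : WeakSpace ℝ Y => ((topDualPairing ℝ Y).flip a) f) =
            (fun p : Γ → ℝ => ∑ γ ∈ (B.repr f).support, (B.repr f) γ * p γ) ∘ e := by
          ext y; exact hrep y
        rw [h5]
        refine @Continuous.comp _ _ _ (TopologicalSpace.induced e inferInstance) _ _ _ _ ?_ he'
        fun_prop
      exact (@continuous_iff_le_induced _ _ _ (TopologicalSpace.induced e inferInstance) _).mp hfull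
  have hdense : DenseRange e := by
    rw [DenseRange, dense_iff_inter_open]
    rintro O hO ⟨p, hp⟩
    obtain ⟨A, η, hη, hsub⟩ := exists_Box_subset hO hp
    have hli : LinearIndependent ℝ
        (fun γ : (A : Set Γ) => ((γ : Γ) : StrongDual ℝ Y).toLinearMap) := by
      have h1 : LinearIndependent ℝ (fun γ : Γ => (γ : StrongDual ℝ Y)) := by
        have := B.linearIndependent
        have hB : (B : Γ → StrongDual ℝ Y) = fun γ : Γ => (γ : StrongDual ℝ Y) := by
          ext1 γ
          exact Module.Basis.ofVectorSpace_apply_self ℝ _ γ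
        rw [hB] at this
        exact this
      have h2 := h1.comp (fun γ : (A : Set Γ) => (γ : Γ)) Subtype.val_injective
      have h3 := h2.map' (ContinuousLinearMap.coeLM ℝ : (Y →L[ℝ] ℝ) →ₗ[ℝ] (Y →ₗ[ℝ] ℝ)) (by
        rw [LinearMap.ker_eq_bot]
        exact ContinuousLinearMap.coe_injective)
      exact h3
    obtain ⟨v, hv⟩ := exists_apply_eq_of_linearIndependent _ hli (fun γ => p γ)
    refine ⟨e v, hsub ?_, ⟨v, rfl⟩⟩
    intro γ hγ
    have := hv ⟨γ, hγ⟩
    have h2 : e v γ = p γ := this
    rw [h2]
    simpa using hη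
  obtain ⟨C, hC, hctl⟩ := exists_countable_control e hind hdense F hF
  refine ⟨Subtype.val '' C, hC.image _, ?_⟩
  intro y ε hε
  obtain ⟨A, hAC, η, hη, hz⟩ := hctl (toWeakSpace ℝ Y y) ε hε
  refine ⟨A.image Subtype.val, ?_, η, hη, ?_⟩
  · intro f hf
    have hf' : f ∈ A.image Subtype.val := hf
    rw [Finset.mem_image] at hf'
    obtain ⟨γ, hγ, rfl⟩ := hf'
    exact ⟨γ, hAC hγ, rfl⟩
  · intro z hzz
    apply hz
    intro γ hγ
    exact hzz γ (Finset.mem_image_of_mem _ hγ)

end Pool.Agent.H14WH
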